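import Mathlib

set_option autoImplicit false
set_option linter.unusedVariables false
set_option linter.unusedSectionVars false

namespace Pool.Agent.MP873b83

/-- Square integer matrices `A` and `B` are shift equivalent over `ℤ` (SE-`ℤ`). -/
def ShiftEquiv {ι κ : Type} [Fintype ι] [DecidableEq ι] [Fintype κ] [DecidableEq κ]
    (A : Matrix ι ι ℤ) (B : Matrix κ κ ℤ) : Prop :=
  ∃ (R : Matrix ι κ ℤ) (S : Matrix κ ι ℤ) (l : ℕ),
    1 ≤ l ∧ A * R = R * B ∧ S * A = B * S ∧ R * S = A ^ l ∧ S * R = B ^ l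

/-- `A` is SE-`ℤ` to a primitive integer matrix of some size. -/
def SEPrimitive {ι : Type} [Fintype ι] [DecidableEq ι] (A : Matrix ι ι ℤ) : Prop :=
  ∃ (n : ℕ) (B : Matrix (Fin n) (Fin n) ℤ), B.IsPrimitive ∧ ShiftEquiv A B

/-- Condition (P) on a list of complex numbers: some positive real entry is larger than the
absolute value of every other entry. -/
def CondP {k : ℕ} (Λ : Fin k → ℂ) : Prop :=
  ∃ (i : Fin k) (r : ℝ), 0 < r ∧ Λ i = (r : ℂ) ∧ ∀ j, j ≠ i → ‖Λ j‖ < r

end Pool.Agent.MP873b83
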