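import Mathlib
import Pool.Agent.MP873b83.Defs

set_option autoImplicit false
set_option linter.unusedVariables false
set_option linter.unusedSectionVars false

namespace Pool.Agent.MP873b83

open Matrix

variable {ι κ : Type} [Fintype ι] [DecidableEq ι] [Fintype κ] [DecidableEq κ]

theorem pow_intertwine {A : Matrix ι ι ℤ} {B : Matrix κ κ ℤ} {S : Matrix κ ι ℤ}
    (h : S * A = B * S) (n : ℕ) : S * A ^ n = B ^ n * S := by
  induction n with
  | zero => simp
  | succ n ih =>
    rw [pow_succ, ← Matrix.mul_assoc, ih, Matrix.mul_assoc, h, ← Matrix.mul_assoc, ← pow_succ]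

theorem ShiftEquiv.trans {τ : Type} [Fintype τ] [DecidableEq τ] {A : Matrix ι ι ℤ}
    {B : Matrix κ κ ℤ} {C : Matrix τ τ ℤ} (h1 : ShiftEquiv A B) (h2 : ShiftEquiv B C) :
    ShiftEquiv A C := by
  obtain ⟨R1, S1, l1, hl1, a1, b1, c1, d1⟩ := h1
  obtain ⟨R2, S2, l2, hl2, a2, b2, c2, d2⟩ := h2
  refine ⟨R1 * R2, S2 * S1, l1 + l2, by omega, ?_, ?_, ?_, ?_⟩
  · rw [← Matrix.mul_assoc, a1, Matrix.mul_assoc, a2, Matrix.mul_assoc]
  · rw [Matrix.mul_assoc, b1, ← Matrix.mul_assoc, b2, Matrix.mul_assoc]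
  · calc R1 * R2 * (S2 * S1) = R1 * ((R2 * S2) * S1) := by simp only [Matrix.mul_assoc]
      _ = R1 * (B ^ l2 * S1) := by rw [c2]
      _ = R1 * (S1 * A ^ l2) := by rw [pow_intertwine b1]
      _ = A ^ l1 * A ^ l2 := by rw [← Matrix.mul_assoc, c1]
      _ = A ^ (l1 + l2) := (pow_add _ _ _).symm
  · have h3 : B ^ l1 * R2 = R2 * C ^ l1 := (pow_intertwine a2.symm l1).symm
    calc S2 * S1 * (R1 * R2) = S2 * ((S1 * R1) * R2) := by simp only [Matrix.mul_assoc]
      _ = S2 * (B ^ l1 * R2) := by rw [d1]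
      _ = S2 * (R2 * C ^ l1) := by rw [h3]
      _ = C ^ l2 * C ^ l1 := by rw [← Matrix.mul_assoc, d2]
      _ = C ^ (l1 + l2) := by rw [← pow_add, add_comm]

/-- Conjugate matrices are shift equivalent. -/
theorem ShiftEquiv.of_conj {A A' P Q : Matrix ι ι ℤ} (hPQ : P * Q = 1) (hQP : Q * P = 1)
    (h : A * P = P * A') : ShiftEquiv A A' := by
  have h' : Q * A = A' * Q := by
    calc Q * A = Q * (A * P) * Q := by rw [Matrix.mul_assoc, Matrix.mul_assoc, hPQ, Matrix.mul_one]
      _ = Q * (P * A') * Q := by rw [h]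
      _ = (Q * P) * A' * Q := by rw [Matrix.mul_assoc Q P A']
      _ = A' * Q := by rw [hQP, Matrix.one_mul]
  refine ⟨P * A', Q, 1, le_rfl, ?_, h', ?_, ?_⟩
  · rw [← Matrix.mul_assoc, h]
  · rw [pow_one, ← h, Matrix.mul_assoc, hPQ, Matrix.mul_one]
  · rw [pow_one, ← Matrix.mul_assoc, hQP, Matrix.one_mul]

/-- Reindexing is a shift equivalence. -/
theorem ShiftEquiv.reindex (B : Matrix ι ι ℤ) (f : ι ≃ κ) :
    ShiftEquiv B (B.submatrix f.symm f.symm) := by
  refine ⟨Matrix.of fun i j => B i (f.symm j), Matrix.of fun i j => if f.symm i = j then 1 else 0,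
    1, le_rfl, ?_, ?_, ?_, ?_⟩
  · ext i j
    simp only [Matrix.mul_apply, Matrix.submatrix_apply, Matrix.of_apply]
    exact (Fintype.sum_equiv f.symm _ _ (fun x => rfl)).symm
  · ext i j
    have e : ∀ x, (f.symm x = j) ↔ (x = f j) := fun x => f.symm_apply_eq
    simp only [Matrix.mul_apply, Matrix.submatrix_apply, Matrix.of_apply, e]
    simp only [ite_mul, mul_ite, one_mul, zero_mul, mul_one, mul_zero, Finset.sum_ite_eq,
      Finset.sum_ite_eq', Finset.mem_univ, if_true, Equiv.symm_apply_apply]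
  · ext i j
    simp [Matrix.mul_apply, Matrix.of_apply, Equiv.symm_apply_eq]
  · ext i j
    simp only [Matrix.mul_apply, Matrix.submatrix_apply, Matrix.of_apply, pow_one, ite_mul, one_mul,
      zero_mul, Finset.sum_ite_eq, Finset.mem_univ, if_true]

theorem isPrimitive_submatrix {B : Matrix ι ι ℤ} (h : B.IsPrimitive) (f : ι ≃ κ) :
    (B.submatrix f.symm f.symm).IsPrimitive := by
  obtain ⟨h1, k, hk, h2⟩ := h
  refine ⟨fun i j => h1 _ _, k, hk, fun i j => ?_⟩
  have : (B.submatrix f.symm f.symm) ^ k = (B ^ k).submatrix f.symm f.symm := by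
    clear h1 hk h2
    induction k with
    | zero => simp
    | succ k ih => rw [pow_succ, ih, pow_succ, Matrix.submatrix_mul_equiv]
  rw [this]
  exact h2 _ _

/-- It is enough to be shift equivalent to a primitive matrix with any finite index type. -/
theorem SEPrimitive.intro {A : Matrix ι ι ℤ} {B : Matrix κ κ ℤ} (hB : B.IsPrimitive)
    (h : ShiftEquiv A B) : SEPrimitive A :=
  ⟨Fintype.card κ, B.submatrix (Fintype.equivFin κ).symm (Fintype.equivFin κ).symm,
    isPrimitive_submatrix hB _, h.trans (ShiftEquiv.reindex B _)⟩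

theorem SEPrimitive.of_shiftEquiv {A : Matrix ι ι ℤ} {A' : Matrix κ κ ℤ} (h : ShiftEquiv A A')
    (h' : SEPrimitive A') : SEPrimitive A := by
  obtain ⟨n, B, hB, h2⟩ := h'
  exact ⟨n, B, hB, h.trans h2⟩

/-- The criterion used in the main construction. -/
theorem shiftEquiv_of_image {A : Matrix ι ι ℤ} {B : Matrix κ κ ℤ} {S : Matrix κ ι ℤ}
    (hS : S * A = B * S) (hinj : ∀ v, S *ᵥ v = 0 → v = 0)
    (him : ∀ u : κ, ∃ l : ℕ, ∃ v, S *ᵥ v = B ^ l *ᵥ Pi.single u 1) : ShiftEquiv A B := by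
  classical
  -- common exponent
  choose l v hv using him
  set L := ∑ u, l u + 1 with hL
  have hv' : ∀ u, ∃ v, S *ᵥ v = B ^ L *ᵥ Pi.single u 1 := by
    intro u
    have hle : l u ≤ L := by
      have := Finset.single_le_sum (f := l) (fun i _ => Nat.zero_le _) (Finset.mem_univ u)
      omega
    obtain ⟨d, hd⟩ := Nat.exists_eq_add_of_le hle
    refine ⟨A ^ d *ᵥ v u, ?_⟩
    rw [Matrix.mulVec_mulVec, pow_intertwine hS, ← Matrix.mulVec_mulVec, hv, Matrix.mulVec_mulVec,
      ← pow_add, hd, add_comm]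
  choose w hw using hv'
  set R : Matrix ι κ ℤ := Matrix.of fun i u => w u i with hR
  have hSR : S * R = B ^ L := by
    ext i u
    have h1 := congrFun (hw u) i
    rw [Matrix.mulVec_single_one] at h1
    have h2 : (S * R) i u = (S *ᵥ w u) i := rfl
    rw [h2, h1]
    rfl
  have hinj' : ∀ {τ : Type} [Fintype τ] [DecidableEq τ] (X Y : Matrix ι τ ℤ),
      S * X = S * Y → X = Y := by
    intro τ _ _ X Y h
    ext i u
    have h1 : S *ᵥ (fun i => X i u - Y i u) = 0 := by
      ext j
      have h2 := congrFun (congrFun h j) u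
      simp only [Matrix.mul_apply] at h2
      simp only [Matrix.mulVec, dotProduct, Pi.zero_apply, mul_sub, Finset.sum_sub_distrib]
      rw [h2, sub_self]
    have h3 := congrFun (hinj _ h1) i
    simp only [Pi.zero_apply] at h3
    linarith
  refine ⟨R, S, L, by omega, ?_, hS, ?_, hSR⟩
  · apply hinj'
    rw [← Matrix.mul_assoc, hS, Matrix.mul_assoc, hSR, ← Matrix.mul_assoc, hSR, ← pow_succ,
      ← pow_succ']
  · apply hinj'
    rw [← Matrix.mul_assoc, hSR, pow_intertwine hS]

/-! ### primitivity -/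

/-- A nonnegative integer matrix with a loop at `o`, in which every state reaches `o` and is
reached from `o`, is primitive. -/
theorem isPrimitive_of_loop {B : Matrix κ κ ℤ} (hB : ∀ i j, 0 ≤ B i j) (o : κ) (ho : 0 < B o o)
    (h1 : ∀ i, ∃ n, 0 < (B ^ n) i o) (h2 : ∀ j, ∃ n, 0 < (B ^ n) o j) : B.IsPrimitive := by
  have hpow : ∀ n i j, 0 ≤ (B ^ n) i j := by
    intro n
    induction n with
    | zero => intro i j; rw [pow_zero, Matrix.one_apply]; split_ifs <;> norm_num
    | succ n ih =>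
      intro i j
      rw [pow_succ, Matrix.mul_apply]
      exact Finset.sum_nonneg fun x _ => mul_nonneg (ih _ _) (hB _ _)
  have hmul : ∀ a b i x j, 0 < (B ^ a) i x → 0 < (B ^ b) x j → 0 < (B ^ (a + b)) i j := by
    intro a b i x j h h'
    rw [pow_add, Matrix.mul_apply]
    exact Finset.sum_pos' (fun y _ => mul_nonneg (hpow _ _ _) (hpow _ _ _))
      ⟨x, Finset.mem_univ x, mul_pos h h'⟩
  have hloop : ∀ n, 0 < (B ^ n) o o := by
    intro n
    induction n with
    | zero => simp
    | succ n ih => exact hmul n 1 o o o ih (by rwa [pow_one])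
  choose f hf using h1
  choose g hg using h2
  set F := ∑ i, f i with hF
  set G := ∑ j, g j with hG
  refine ⟨hB, F + G + 1, by omega, fun i j => ?_⟩
  have hfi : f i ≤ F := Finset.single_le_sum (f := f) (fun i _ => Nat.zero_le _) (Finset.mem_univ i)
  have hgj : g j ≤ G := Finset.single_le_sum (f := g) (fun i _ => Nat.zero_le _) (Finset.mem_univ j)
  have e : F + G + 1 = (f i + ((F - f i) + (G - g j) + 1)) + g j := by omega
  rw [e]
  exact hmul _ _ i o j (hmul _ _ i o o (hf i) (hloop _)) (hg j)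

/-- Positive powers compose. -/
theorem pow_pos_trans {B : Matrix κ κ ℤ} (hB : ∀ i j, 0 ≤ B i j) {a b : ℕ} {i x j : κ}
    (h : 0 < (B ^ a) i x) (h' : 0 < (B ^ b) x j) : 0 < (B ^ (a + b)) i j := by
  have hpow : ∀ n i j, 0 ≤ (B ^ n) i j := by
    intro n
    induction n with
    | zero => intro i j; rw [pow_zero, Matrix.one_apply]; split_ifs <;> norm_num
    | succ n ih =>
      intro i j
      rw [pow_succ, Matrix.mul_apply]
      exact Finset.sum_nonneg fun x _ => mul_nonneg (ih _ _) (hB _ _)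
  rw [pow_add, Matrix.mul_apply]
  exact Finset.sum_pos' (fun y _ => mul_nonneg (hpow _ _ _) (hpow _ _ _))
    ⟨x, Finset.mem_univ x, mul_pos h h'⟩

end Pool.Agent.MP873b83
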