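import Mathlib
import Pool.Agent.MP873b83.SE

set_option autoImplicit false
set_option linter.unusedVariables false
set_option linter.unusedSectionVars false
set_option linter.unusedSimpArgs false

namespace Pool.Agent.MP873b83

open Matrix Polynomial

/-! ### vectors and polynomials -/

/-- The polynomial with coefficient vector `g`. -/
noncomputable def pol {n : ℕ} (g : Fin (n + 1) → ℤ) : ℤ[X] := ∑ j : Fin (n + 1), monomial (j : ℕ) (g j)

theorem pol_coeff {n : ℕ} (g : Fin (n + 1) → ℤ) (i : ℕ) :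
    (pol g).coeff i = if h : i < n + 1 then g ⟨i, h⟩ else 0 := by
  unfold pol
  rw [finsetSum_coeff]
  simp only [coeff_monomial]
  by_cases h : i < n + 1
  · rw [dif_pos h, Finset.sum_eq_single ⟨i, h⟩]
    · simp
    · intro j _ hj
      rw [if_neg]
      intro he
      exact hj (Fin.ext he)
    · simp
  · rw [dif_neg h]
    apply Finset.sum_eq_zero
    intro j _
    rw [if_neg]
    have := j.2
    omega

theorem pol_coeff_fin {n : ℕ} (g : Fin (n + 1) → ℤ) (i : Fin (n + 1)) :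
    (pol g).coeff i = g i := by
  rw [pol_coeff, dif_pos i.2]

theorem pol_zero_iff {n : ℕ} (g : Fin (n + 1) → ℤ) : pol g = 0 ↔ g = 0 := by
  constructor
  · intro h
    ext i
    have := pol_coeff_fin g i
    rw [h, coeff_zero] at this
    exact this.symm
  · rintro rfl
    simp [pol]

/-- The index type. -/
abbrev Idx (n1 n2 : ℕ) : Type := Fin (n1 + 1) ⊕ Fin (n2 + 1)

/-- The matrix presented by the polynomial matrix `[[a, b], [c, e]]`. -/
def comp (n1 n2 : ℕ) (a b c e : ℤ[X]) : Matrix (Idx n1 n2) (Idx n1 n2) ℤ :=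
  Matrix.of fun r s => match r, s with
  | Sum.inl i, Sum.inl j =>
      if (j : ℕ) = 0 then a.coeff (i + 1) else if (j : ℕ) = i + 1 then 1 else 0
  | Sum.inl i, Sum.inr j => if (j : ℕ) = 0 then b.coeff (i + 1) else 0
  | Sum.inr i, Sum.inl j => if (j : ℕ) = 0 then c.coeff (i + 1) else 0
  | Sum.inr i, Sum.inr j =>
      if (j : ℕ) = 0 then e.coeff (i + 1) else if (j : ℕ) = i + 1 then 1 else 0

theorem sum_shift {n : ℕ} (i : Fin (n + 1)) (x : ℤ) (g : Fin (n + 1) → ℤ) :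
    ∑ j : Fin (n + 1), (if (j : ℕ) = 0 then x else if (j : ℕ) = i + 1 then 1 else 0) * g j =
      x * g 0 + (pol g).coeff (i + 1) := by
  rw [Fin.sum_univ_succ]
  congr 1
  rw [pol_coeff]
  by_cases h : (i : ℕ) + 1 < n + 1
  · rw [dif_pos h, Finset.sum_eq_single ⟨i, by omega⟩]
    · simp
    · intro j _ hj
      rw [if_neg (by simp), if_neg]
      · simp
      · intro he
        apply hj
        ext
        simpa using he
    · simp
  · rw [dif_neg h]
    apply Finset.sum_eq_zero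
    intro j _
    rw [if_neg (by simp), if_neg]
    · simp
    · have := j.2
      simp only [Fin.val_succ]
      omega

theorem sum_first {n : ℕ} (x : ℤ) (g : Fin (n + 1) → ℤ) :
    ∑ j : Fin (n + 1), (if (j : ℕ) = 0 then x else 0) * g j = x * g 0 := by
  rw [Fin.sum_univ_succ]
  simp

variable {n1 n2 : ℕ} (a b c e : ℤ[X])

theorem comp_mulVec_inl (f : Idx n1 n2 → ℤ) (i : Fin (n1 + 1)) :
    (comp n1 n2 a b c e *ᵥ f) (Sum.inl i) =
      a.coeff (i + 1) * f (Sum.inl 0) + (pol fun j => f (Sum.inl j)).coeff (i + 1) +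
        b.coeff (i + 1) * f (Sum.inr 0) := by
  rw [Matrix.mulVec, dotProduct, Fintype.sum_sum_type]
  have h1 := sum_shift i (a.coeff (i + 1)) (fun j => f (Sum.inl j))
  have h2 := sum_first (b.coeff (i + 1)) (fun j : Fin (n2 + 1) => f (Sum.inr j))
  rw [← h1, ← h2]
  rfl

theorem comp_mulVec_inr (f : Idx n1 n2 → ℤ) (i : Fin (n2 + 1)) :
    (comp n1 n2 a b c e *ᵥ f) (Sum.inr i) =
      c.coeff (i + 1) * f (Sum.inl 0) + (pol fun j => f (Sum.inr j)).coeff (i + 1) +
        e.coeff (i + 1) * f (Sum.inr 0) := by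
  rw [Matrix.mulVec, dotProduct, Fintype.sum_sum_type]
  have h1 := sum_shift i (e.coeff (i + 1)) (fun j => f (Sum.inr j))
  have h2 := sum_first (c.coeff (i + 1)) (fun j : Fin (n1 + 1) => f (Sum.inl j))
  rw [add_assoc, add_comm (pol _ |>.coeff _), ← h1, ← h2]
  rfl

/-- First component. -/
noncomputable def p1 (f : Idx n1 n2 → ℤ) : ℤ[X] := pol fun j => f (Sum.inl j)
/-- Second component. -/
noncomputable def p2 (f : Idx n1 n2 → ℤ) : ℤ[X] := pol fun j => f (Sum.inr j)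

theorem p_eq_zero {f : Idx n1 n2 → ℤ} (h1 : p1 f = 0) (h2 : p2 f = 0) : f = 0 := by
  ext u
  rcases u with i | i
  · exact congrFun ((pol_zero_iff _).1 h1) i
  · exact congrFun ((pol_zero_iff _).1 h2) i

theorem p1_coeff_zero (f : Idx n1 n2 → ℤ) : (p1 f).coeff 0 = f (Sum.inl 0) :=
  pol_coeff_fin _ 0
theorem p2_coeff_zero (f : Idx n1 n2 → ℤ) : (p2 f).coeff 0 = f (Sum.inr 0) :=
  pol_coeff_fin _ 0

theorem p1_add (f g : Idx n1 n2 → ℤ) : p1 (f + g) = p1 f + p1 g := by
  ext i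
  rw [coeff_add, p1, p1, p1, pol_coeff, pol_coeff, pol_coeff]
  split_ifs <;> simp
theorem p2_add (f g : Idx n1 n2 → ℤ) : p2 (f + g) = p2 f + p2 g := by
  ext i
  rw [coeff_add, p2, p2, p2, pol_coeff, pol_coeff, pol_coeff]
  split_ifs <;> simp
theorem p1_smul (z : ℤ) (f : Idx n1 n2 → ℤ) : p1 (z • f) = C z * p1 f := by
  ext i
  rw [coeff_C_mul, p1, p1, pol_coeff, pol_coeff]
  split_ifs <;> simp
theorem p2_smul (z : ℤ) (f : Idx n1 n2 → ℤ) : p2 (z • f) = C z * p2 f := by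
  ext i
  rw [coeff_C_mul, p2, p2, pol_coeff, pol_coeff]
  split_ifs <;> simp

/-- Standing hypotheses on the polynomials. -/
structure Ok (n1 n2 : ℕ) (a b c e : ℤ[X]) : Prop where
  a0 : a.coeff 0 = 0
  b0 : b.coeff 0 = 0
  c0 : c.coeff 0 = 0
  e0 : e.coeff 0 = 0
  ad : ∀ j, n1 + 1 < j → a.coeff j = 0
  bd : ∀ j, n1 + 1 < j → b.coeff j = 0
  cd : ∀ j, n2 + 1 < j → c.coeff j = 0
  ed : ∀ j, n2 + 1 < j → e.coeff j = 0

variable {a b c e}

theorem X_mul_p1 (h : Ok n1 n2 a b c e) (f : Idx n1 n2 → ℤ) :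
    X * p1 (comp n1 n2 a b c e *ᵥ f) =
      p1 f - C (f (Sum.inl 0)) * (1 - a) + C (f (Sum.inr 0)) * b := by
  ext j
  rcases j with _ | j
  · rw [mul_coeff_zero, coeff_X_zero, zero_mul, coeff_add, coeff_sub, p1_coeff_zero, coeff_C_mul,
      coeff_C_mul, coeff_sub, h.a0, h.b0]
    simp
  · rw [coeff_X_mul, coeff_add, coeff_sub, coeff_C_mul, coeff_C_mul, coeff_sub, coeff_one,
      if_neg (by omega), p1, p1, pol_coeff]
    by_cases hj : j < n1 + 1
    · rw [dif_pos hj, comp_mulVec_inl]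
      ring
    · rw [dif_neg hj, pol_coeff, dif_neg (by omega), h.ad _ (by omega), h.bd _ (by omega)]
      simp

theorem X_mul_p2 (h : Ok n1 n2 a b c e) (f : Idx n1 n2 → ℤ) :
    X * p2 (comp n1 n2 a b c e *ᵥ f) =
      p2 f + C (f (Sum.inl 0)) * c - C (f (Sum.inr 0)) * (1 - e) := by
  ext j
  rcases j with _ | j
  · rw [mul_coeff_zero, coeff_X_zero, zero_mul, coeff_sub, coeff_add, p2_coeff_zero, coeff_C_mul,
      coeff_C_mul, coeff_sub, h.c0, h.e0]
    simp
  · rw [coeff_X_mul, coeff_sub, coeff_add, coeff_C_mul, coeff_C_mul, coeff_sub, coeff_one,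
      if_neg (by omega), p2, p2, pol_coeff]
    by_cases hj : j < n2 + 1
    · rw [dif_pos hj, comp_mulVec_inr]
      ring
    · rw [dif_neg hj, pol_coeff, dif_neg (by omega), h.cd _ (by omega), h.ed _ (by omega)]
      simp

/-- A vector is killed by a power as soon as its pair of polynomials is a combination of the
relations. -/
theorem killed (h : Ok n1 n2 a b c e) : ∀ (l : ℕ) (f : Idx n1 n2 → ℤ) (φ ψ : ℤ[X]),
    (∀ j, l ≤ j → φ.coeff j = 0) → (∀ j, l ≤ j → ψ.coeff j = 0) →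
    p1 f = φ * (1 - a) - ψ * b → p2 f = ψ * (1 - e) - φ * c →
    (comp n1 n2 a b c e) ^ l *ᵥ f = 0 := by
  intro l
  induction l with
  | zero =>
    intro f φ ψ h1 h2 h3 h4
    have hφ : φ = 0 := by ext j; simpa using h1 j (Nat.zero_le _)
    have hψ : ψ = 0 := by ext j; simpa using h2 j (Nat.zero_le _)
    rw [pow_zero, Matrix.one_mulVec]
    apply p_eq_zero
    · rw [h3, hφ, hψ]; ring
    · rw [h4, hφ, hψ]; ring
  | succ l ih =>
    intro f φ ψ h1 h2 h3 h4
    rw [pow_succ, ← Matrix.mulVec_mulVec]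
    have hf1 : f (Sum.inl 0) = φ.coeff 0 := by
      have := p1_coeff_zero f
      rw [h3, coeff_sub, mul_coeff_zero, mul_coeff_zero, coeff_sub, h.a0, h.b0] at this
      rw [← this]; simp
    have hf2 : f (Sum.inr 0) = ψ.coeff 0 := by
      have := p2_coeff_zero f
      rw [h4, coeff_sub, mul_coeff_zero, mul_coeff_zero, coeff_sub, h.e0, h.c0] at this
      rw [← this]; simp
    apply ih _ (divX φ) (divX ψ)
    · intro j hj
      rw [coeff_divX]
      exact h1 _ (by omega)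
    · intro j hj
      rw [coeff_divX]
      exact h2 _ (by omega)
    · apply mul_left_cancel₀ (X_ne_zero (R := ℤ))
      rw [X_mul_p1 h, h3, hf1, hf2]
      have e1 := X_mul_divX_add φ
      have e2 := X_mul_divX_add ψ
      linear_combination (-(1 - a)) * e1 + b * e2
    · apply mul_left_cancel₀ (X_ne_zero (R := ℤ))
      rw [X_mul_p2 h, h4, hf1, hf2]
      have e1 := X_mul_divX_add φ
      have e2 := X_mul_divX_add ψ
      linear_combination (c) * e1 - (1 - e) * e2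

/-- Conversely, killed vectors are combinations of the relations. -/
theorem of_killed (h : Ok n1 n2 a b c e) : ∀ (l : ℕ) (f : Idx n1 n2 → ℤ),
    (comp n1 n2 a b c e) ^ l *ᵥ f = 0 →
    ∃ φ ψ : ℤ[X], p1 f = φ * (1 - a) - ψ * b ∧ p2 f = ψ * (1 - e) - φ * c := by
  intro l
  induction l with
  | zero =>
    intro f hf
    rw [pow_zero, Matrix.one_mulVec] at hf
    refine ⟨0, 0, ?_, ?_⟩
    · have : p1 f = 0 := by rw [p1, pol_zero_iff, hf]; rfl
      rw [this]; ring
    · have : p2 f = 0 := by rw [p2, pol_zero_iff, hf]; rfl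
      rw [this]; ring
  | succ l ih =>
    intro f hf
    rw [pow_succ, ← Matrix.mulVec_mulVec] at hf
    obtain ⟨φ, ψ, h1, h2⟩ := ih _ hf
    have e1 := X_mul_p1 h f
    have e2 := X_mul_p2 h f
    rw [h1] at e1
    rw [h2] at e2
    refine ⟨X * φ + C (f (Sum.inl 0)), X * ψ + C (f (Sum.inr 0)), ?_, ?_⟩
    · linear_combination -e1
    · linear_combination -e2

/-! ### basis vectors -/

/-- Basis vector of the first kind. -/
def E1 (n1 n2 : ℕ) (i : Fin (n1 + 1)) : Idx n1 n2 → ℤ := Pi.single (Sum.inl i) 1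
/-- Basis vector of the second kind. -/
def E2 (n1 n2 : ℕ) (i : Fin (n2 + 1)) : Idx n1 n2 → ℤ := Pi.single (Sum.inr i) 1

theorem comp_E1_succ (i : ℕ) (hi : i + 1 < n1 + 1) :
    comp n1 n2 a b c e *ᵥ E1 n1 n2 ⟨i + 1, hi⟩ = E1 n1 n2 ⟨i, by omega⟩ := by
  ext u
  rw [E1, Matrix.mulVec_single_one, E1]
  rcases u with j | j
  · simp only [comp, Matrix.col_apply, Matrix.of_apply, Pi.single_apply, Sum.inl.injEq, Fin.ext_iff]
    rw [if_neg (by omega)]
    by_cases hh : (j : ℕ) = i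
    · rw [if_pos (by omega), if_pos hh]
    · rw [if_neg (by omega), if_neg hh]
  · simp [comp, Matrix.col_apply, Pi.single_apply]

theorem comp_E2_succ (i : ℕ) (hi : i + 1 < n2 + 1) :
    comp n1 n2 a b c e *ᵥ E2 n1 n2 ⟨i + 1, hi⟩ = E2 n1 n2 ⟨i, by omega⟩ := by
  ext u
  rw [E2, Matrix.mulVec_single_one, E2]
  rcases u with j | j
  · simp [comp, Matrix.col_apply, Pi.single_apply]
  · simp only [comp, Matrix.col_apply, Matrix.of_apply, Pi.single_apply, Sum.inr.injEq, Fin.ext_iff]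
    rw [if_neg (by omega)]
    by_cases hh : (j : ℕ) = i
    · rw [if_pos (by omega), if_pos hh]
    · rw [if_neg (by omega), if_neg hh]

/-- A vector of the second kind from a polynomial. -/
def vec2 (n1 n2 : ℕ) (p : ℤ[X]) : Idx n1 n2 → ℤ := Sum.elim 0 fun j => p.coeff j

theorem p1_vec2 (p : ℤ[X]) : p1 (vec2 n1 n2 p) = 0 := by
  rw [p1, pol_zero_iff]; rfl
theorem p2_vec2 (p : ℤ[X]) (hp : ∀ j, n2 + 1 ≤ j → p.coeff j = 0) : p2 (vec2 n1 n2 p) = p := by
  ext j
  rw [p2, pol_coeff]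
  split_ifs with hj
  · rfl
  · rw [hp j (by omega)]

theorem p1_E1 (i : Fin (n1 + 1)) : p1 (E1 n1 n2 i) = X ^ (i : ℕ) := by
  ext j
  rw [p1, pol_coeff, coeff_X_pow, E1]
  split_ifs with h1 h2 h2
  · simp [Pi.single_apply, Fin.ext_iff, h2]
  · simp [Pi.single_apply, Fin.ext_iff, h2]
  · have := i.2; omega
  · rfl
theorem p2_E1 (i : Fin (n1 + 1)) : p2 (E1 n1 n2 i) = 0 := by
  rw [p2, pol_zero_iff]; ext j; simp [E1, Pi.single_apply]
theorem p1_E2 (i : Fin (n2 + 1)) : p1 (E2 n1 n2 i) = 0 := by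
  rw [p1, pol_zero_iff]; ext j; simp [E2, Pi.single_apply]
theorem p2_E2 (i : Fin (n2 + 1)) : p2 (E2 n1 n2 i) = X ^ (i : ℕ) := by
  ext j
  rw [p2, pol_coeff, coeff_X_pow, E2]
  split_ifs with h1 h2 h2
  · simp [Pi.single_apply, Fin.ext_iff, h2]
  · simp [Pi.single_apply, Fin.ext_iff, h2]
  · have := i.2; omega
  · rfl

end Pool.Agent.MP873b83
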