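import Mathlib

set_option autoImplicit false

namespace Pool.Agent.MP873b83

/-- The low sequence. -/
def low (t s N c : ℤ) : ℕ → ℤ
  | 0 => -1
  | 1 => s + c
  | 2 => N * c - s ^ 2 - c * s
  | (j + 3) => t * low t s N c (j + 2) + s * (s + t) * low t s N c (j + 1) +
      N * c * (-s) ^ (j + 1)

theorem low_closed (t s N c : ℤ) (i : ℕ) :
    (s + t + s) ^ 2 * low t s N c (i + 1) =
      N * c * ((s + t) ^ (i + 1) - (-s) ^ i * ((s + t) + (s + t + s) * i)) +
        (s + t + s) ^ 2 * (c + s) * (-s) ^ i ∧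
    (s + t + s) ^ 2 * low t s N c (i + 2) =
      N * c * ((s + t) ^ (i + 2) - (-s) ^ (i + 1) * ((s + t) + (s + t + s) * (i + 1))) +
        (s + t + s) ^ 2 * (c + s) * (-s) ^ (i + 1) := by
  induction i with
  | zero =>
    constructor
    · change (s + t + s) ^ 2 * (s + c) = _
      push_cast; ring
    · change (s + t + s) ^ 2 * (N * c - s ^ 2 - c * s) = _
      push_cast; ring
  | succ i ih =>
    obtain ⟨h1, h2⟩ := ih
    refine ⟨by push_cast at h2 ⊢; exact h2, ?_⟩
    have e : low t s N c (i + 1 + 2) = t * low t s N c (i + 2) +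
        s * (s + t) * low t s N c (i + 1) + N * c * (-s) ^ (i + 1) := rfl
    rw [e]
    have : (s + t + s) ^ 2 * (t * low t s N c (i + 2) +
        s * (s + t) * low t s N c (i + 1) + N * c * (-s) ^ (i + 1)) =
        t * ((s + t + s) ^ 2 * low t s N c (i + 2)) +
        s * (s + t) * ((s + t + s) ^ 2 * low t s N c (i + 1)) +
        (s + t + s) ^ 2 * (N * c * (-s) ^ (i + 1)) := by ring
    rw [this, h1, h2]
    push_cast
    ring

theorem low_G (t s N c : ℤ) (i : ℕ) :
    (s + t + s) * (low t s N c (i + 2) + s * low t s N c (i + 1)) =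
      N * c * ((s + t) ^ (i + 1) - (-s) ^ (i + 1)) := by
  induction i with
  | zero => simp [low]; ring
  | succ i ih =>
    have e : low t s N c (i + 1 + 2) = t * low t s N c (i + 2) +
        s * (s + t) * low t s N c (i + 1) + N * c * (-s) ^ (i + 1) := rfl
    rw [e]
    have : (s + t + s) * (t * low t s N c (i + 2) +
        s * (s + t) * low t s N c (i + 1) + N * c * (-s) ^ (i + 1) +
          s * low t s N c (i + 1 + 1)) =
        (s + t) * ((s + t + s) * (low t s N c (i + 2) + s * low t s N c (i + 1))) +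
        (s + t + s) * (N * c * (-s) ^ (i + 1)) := by ring
    rw [this, ih]
    ring

theorem low_G_nonneg {t s N c : ℤ} (ht : 1 ≤ t) (hs : 1 ≤ s) (hN : 1 ≤ N) (hc : 1 ≤ c) (i : ℕ) :
    0 ≤ low t s N c (i + 2) + s * low t s N c (i + 1) := by
  have h := low_G t s N c i
  have h1 : 0 ≤ (s + t) ^ (i + 1) - (-s) ^ (i + 1) := by
    have h2 : (-s) ^ (i + 1) ≤ |(-s) ^ (i + 1)| := le_abs_self _
    rw [abs_pow, abs_neg, abs_of_pos (by linarith : 0 < s)] at h2
    have h3 : s ^ (i + 1) ≤ (s + t) ^ (i + 1) := pow_le_pow_left₀ (by linarith) (by linarith) _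
    linarith
  have h2 : 0 ≤ (s + t + s) * (low t s N c (i + 2) + s * low t s N c (i + 1)) := by
    rw [h]; positivity
  exact nonneg_of_mul_nonneg_right h2 (by linarith)

/-- The low sequence outgrows every multiple of `s ^ j`. -/
theorem low_growth {t s N c : ℤ} (ht : 1 ≤ t) (hs : 1 ≤ s) (hN : 1 ≤ N) (hc : 1 ≤ c) (B : ℤ) :
    ∃ j₀ : ℕ, ∀ j, j₀ ≤ j → B * s ^ j ≤ low t s N c j := by
  -- real asymptotics
  have hs' : (0 : ℝ) < s := by exact_mod_cast (by linarith : 0 < s)
  have hmu : (0 : ℝ) < (s + t : ℤ) := by exact_mod_cast (by linarith : 0 < s + t)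
  set r : ℝ := (s : ℝ) / (s + t : ℤ) with hr
  have hr0 : 0 < r := div_pos hs' hmu
  have hr1 : r < 1 := by
    rw [hr, div_lt_one hmu]
    exact_mod_cast (by linarith : s < s + t)
  have t1 := tendsto_pow_const_mul_const_pow_of_abs_lt_one 1 (by rwa [abs_of_pos hr0] : |r| < 1)
  have t0 := tendsto_pow_atTop_nhds_zero_of_lt_one hr0.le hr1
  set C1 : ℝ := ((B * s * (s + t + s) ^ 2 + N * c * (s + t) + (s + t + s) ^ 2 * (c + s) : ℤ) : ℝ)
    with hC1
  set C2 : ℝ := ((N * c * (s + t + s) : ℤ) : ℝ) with hC2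
  have t2 : Filter.Tendsto (fun n : ℕ => C1 * r ^ n + C2 * ((n : ℝ) ^ 1 * r ^ n)) Filter.atTop
      (nhds (C1 * 0 + C2 * 0)) := (t0.const_mul C1).add (t1.const_mul C2)
  have hpos : (C1 * 0 + C2 * 0 : ℝ) < 1 := by norm_num
  obtain ⟨n₀, hn₀⟩ := Filter.eventually_atTop.1 (t2.eventually (gt_mem_nhds hpos))
  refine ⟨n₀ + 1, ?_⟩
  rintro j hj
  obtain ⟨i, rfl⟩ : ∃ i, j = i + 1 := ⟨j - 1, by omega⟩
  have hi := hn₀ i (by omega)
  rw [pow_one] at hi
  have hri : r ^ i = (s : ℝ) ^ i / ((s + t : ℤ) : ℝ) ^ i := by rw [hr, div_pow]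
  have hmui : (0 : ℝ) < ((s + t : ℤ) : ℝ) ^ i := pow_pos hmu i
  rw [hri] at hi
  have hi2 : C1 * (s : ℝ) ^ i + C2 * ((i : ℝ) * (s : ℝ) ^ i) < ((s + t : ℤ) : ℝ) ^ i := by
    have : C1 * ((s : ℝ) ^ i / ((s + t : ℤ) : ℝ) ^ i) +
        C2 * ((i : ℝ) * ((s : ℝ) ^ i / ((s + t : ℤ) : ℝ) ^ i)) =
        (C1 * (s : ℝ) ^ i + C2 * ((i : ℝ) * (s : ℝ) ^ i)) / ((s + t : ℤ) : ℝ) ^ i := by
      field_simp
    rw [this, div_lt_one hmui] at hi
    exact hi
  have hi3 : (B * s * (s + t + s) ^ 2 + N * c * (s + t) + (s + t + s) ^ 2 * (c + s)) * s ^ i +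
      (N * c * (s + t + s)) * ((i : ℤ) * s ^ i) < (s + t) ^ i := by
    rw [hC1, hC2] at hi2
    exact_mod_cast hi2
  have hcl := (low_closed t s N c i).1
  have habs : |(-s) ^ i| = s ^ i := by
    rw [abs_pow, abs_neg, abs_of_pos (by linarith : 0 < s)]
  have hub : (-s) ^ i ≤ s ^ i := habs ▸ le_abs_self _
  have hlb : -(s ^ i) ≤ (-s) ^ i := by rw [← habs]; exact neg_abs_le _
  have hsi : 0 < s ^ i := pow_pos (by linarith) i
  have hmi : (s + t) ^ i ≤ (s + t) ^ (i + 1) := by
    rw [pow_succ]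
    have : 0 < (s + t) ^ i := pow_pos (by linarith) i
    nlinarith
  have key : B * s ^ (i + 1) * (s + t + s) ^ 2 ≤ (s + t + s) ^ 2 * low t s N c (i + 1) := by
    rw [hcl]
    have h1 : (-s) ^ i * ((s + t) + (s + t + s) * i) ≤ s ^ i * ((s + t) + (s + t + s) * i) :=
      mul_le_mul_of_nonneg_right hub (by positivity)
    have h2 : -(s ^ i) * ((s + t + s) ^ 2 * (c + s)) ≤ (s + t + s) ^ 2 * (c + s) * (-s) ^ i := by
      rw [mul_comm ((s + t + s) ^ 2 * (c + s))]
      exact mul_le_mul_of_nonneg_right hlb (by positivity)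
    have h3 : (s + t) ^ (i + 1) - s ^ i * ((s + t) + (s + t + s) * i) ≤
        (s + t) ^ (i + 1) - (-s) ^ i * ((s + t) + (s + t + s) * i) := by linarith
    have h4 : N * c * ((s + t) ^ (i + 1) - s ^ i * ((s + t) + (s + t + s) * i)) ≤
        N * c * ((s + t) ^ (i + 1) - (-s) ^ i * ((s + t) + (s + t + s) * i)) :=
      mul_le_mul_of_nonneg_left h3 (by positivity)
    have h5 : (s + t) ^ (i + 1) ≤ N * c * (s + t) ^ (i + 1) := by
      have : 0 < (s + t) ^ (i + 1) := pow_pos (by linarith) _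
      have h6 : 1 ≤ N * c := by nlinarith
      nlinarith
    have h6 : B * s ^ (i + 1) * (s + t + s) ^ 2 = (B * s * (s + t + s) ^ 2) * s ^ i := by ring
    rw [h6]
    nlinarith [hi3, h2, h4, h5, hmi]
  have hpos2 : 0 < (s + t + s) ^ 2 := by positivity
  have : (s + t + s) ^ 2 * (B * s ^ (i + 1)) ≤ (s + t + s) ^ 2 * low t s N c (i + 1) := by
    linarith [key, mul_comm (B * s ^ (i + 1)) ((s + t + s) ^ 2)]
  exact le_of_mul_le_mul_left this hpos2

/-! ### the full sequence -/

/-- The full sequence, with `k = 2 h + 1`. -/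
def W (t s N c : ℤ) (h : ℕ) : ℕ → ℤ
  | 0 => -1
  | 1 => s + c
  | (j + 2) => t * W t s N c h (j + 1) + s * (s + t) * W t s N c h j +
      (if 2 * h + 1 ≤ j + 2 then N * s ^ (2 * h) * W t s N c h (j + 2 - (2 * h + 1)) else 0) +
      (if j = 0 then N * c - (s + t) * c else if j + 2 ≤ 2 * h + 1 then N * c * (-s) ^ j else 0)
  termination_by j => j
  decreasing_by all_goals omega

theorem W_zero (t s N c : ℤ) (h : ℕ) : W t s N c h 0 = -1 := by rw [W]
theorem W_one (t s N c : ℤ) (h : ℕ) : W t s N c h 1 = s + c := by rw [W]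
theorem W_succ (t s N c : ℤ) (h j : ℕ) : W t s N c h (j + 2) =
    t * W t s N c h (j + 1) + s * (s + t) * W t s N c h j +
      (if 2 * h + 1 ≤ j + 2 then N * s ^ (2 * h) * W t s N c h (j + 2 - (2 * h + 1)) else 0) +
      (if j = 0 then N * c - (s + t) * c else if j + 2 ≤ 2 * h + 1 then N * c * (-s) ^ j else 0) := by
  rw [W]

theorem W_eq_low (t s N c : ℤ) (h : ℕ) : ∀ j, j ≤ 2 * h → W t s N c h j = low t s N c j := by
  intro j
  induction j using Nat.strong_induction_on with
  | _ j ih =>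
    intro hj
    match j, ih, hj with
    | 0, _, _ => rw [W_zero]; rfl
    | 1, _, _ => rw [W_one]; rfl
    | 2, ih, hj =>
      rw [W_succ, W_zero, W_one, if_neg (by omega), if_pos rfl]
      change _ = N * c - s ^ 2 - c * s
      ring
    | (j + 3), ih, hj =>
      rw [show j + 3 = (j + 1) + 2 from rfl, W_succ, if_neg (by omega), if_neg (by omega),
        if_pos (by omega), ih (j + 1 + 1) (by omega) (by omega), ih (j + 1) (by omega) (by omega)]
      change _ = t * low t s N c (j + 2) + s * (s + t) * low t s N c (j + 1) +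
        N * c * (-s) ^ (j + 1)
      ring

/-- The window of positivity. -/
theorem exists_window {t s N c : ℤ} (ht : 1 ≤ t) (hs : 1 ≤ s) (hN : 1 ≤ N) (hc : 1 ≤ c) :
    ∃ h K : ℕ, 1 ≤ h ∧ 2 * h + 3 ≤ K ∧
      (∀ j, K ≤ j + (2 * h + 1) → j < K → 0 ≤ W t s N c h j) ∧
      0 < W t s N c h (K - 1) ∧
      (∀ j, j + 2 < K → 0 ≤ W t s N c h (j + 2) + s * W t s N c h (j + 1)) := by
  obtain ⟨k₁, hk₁⟩ := low_growth ht hs hN hc 1
  set B : ℤ := 1 + c + ∑ i ∈ Finset.range (k₁ + 3), |low t s N c i| with hB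
  have hBlow : ∀ i, i < k₁ + 3 → -B ≤ low t s N c i := by
    intro i hi
    have h1 : |low t s N c i| ≤ ∑ i ∈ Finset.range (k₁ + 3), |low t s N c i| :=
      Finset.single_le_sum (f := fun i => |low t s N c i|) (fun i _ => abs_nonneg _)
        (Finset.mem_range.2 hi)
    have h2 := neg_abs_le (low t s N c i)
    rw [hB]; linarith
  have hB0 : 1 + c ≤ B := by
    have : 0 ≤ ∑ i ∈ Finset.range (k₁ + 3), |low t s N c i| :=
      Finset.sum_nonneg fun i _ => abs_nonneg _
    rw [hB]; linarith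
  obtain ⟨k₂, hk₂⟩ := low_growth ht hs hN hc (N * s * B)
  obtain ⟨h, hh⟩ : ∃ h, k₁ + k₂ + 4 ≤ h := ⟨_, le_rfl⟩
  -- notation
  have hpos : ∀ j, k₁ ≤ j → 0 < low t s N c j := by
    intro j hj
    have h1 := hk₁ j hj
    have h2 : 0 < s ^ j := pow_pos (by linarith) j
    linarith
  set X : ℤ := N * s ^ (2 * h) * B with hX
  have hXpos : 0 < X := by
    rw [hX]
    have : 0 < s ^ (2 * h) := pow_pos (by linarith) _
    have : 0 < B := by linarith
    positivity
  -- lower bound on the upper part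
  have hup : ∀ j, 2 * h - 1 ≤ j → j < 2 * h + 1 + (k₁ + 3) → X ≤ W t s N c h j := by
    intro j
    induction j using Nat.strong_induction_on with
    | _ j ih =>
      intro hj1 hj2
      by_cases hj : j ≤ 2 * h
      · rw [W_eq_low _ _ _ _ _ _ hj]
        have h1 := hk₂ j (by omega)
        refine le_trans ?_ h1
        have h2 : s ^ (2 * h) ≤ s * s ^ j := by
          rw [← pow_succ']
          exact pow_le_pow_right₀ hs (by omega)
        have h3 : 0 ≤ N * B := by
          have : 0 < B := by linarith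
          positivity
        calc X = (N * B) * s ^ (2 * h) := by rw [hX]; ring
          _ ≤ (N * B) * (s * s ^ j) := mul_le_mul_of_nonneg_left h2 h3
          _ = N * s * B * s ^ j := by ring
      · obtain ⟨i, rfl⟩ : ∃ i, j = i + 2 := ⟨j - 2, by omega⟩
        have h1 := ih (i + 1) (by omega) (by omega) (by omega)
        have h2 := ih i (by omega) (by omega) (by omega)
        rw [W_succ, if_pos (by omega), if_neg (by omega)]
        have h4 : X * 3 ≤ t * W t s N c h (i + 1) + s * (s + t) * W t s N c h i := by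
          have a1 : X ≤ t * W t s N c h (i + 1) := by nlinarith
          have a2 : 2 * X ≤ s * (s + t) * W t s N c h i := by
            have : 2 ≤ s * (s + t) := by nlinarith
            nlinarith
          linarith
        by_cases hi : i + 2 = 2 * h + 1
        · have e0 : i + 2 - (2 * h + 1) = 0 := by omega
          rw [e0, W_zero, if_pos (by omega)]
          have e1 : (-s) ^ i = -(s ^ i) := by
            have ho : Odd i := ⟨h - 1, by omega⟩
            exact ho.neg_pow s
          rw [e1]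
          have h5 : s ^ i ≤ s ^ (2 * h) := pow_le_pow_right₀ hs (by omega)
          have h6 : N * s ^ (2 * h) + N * c * s ^ i ≤ X := by
            calc N * s ^ (2 * h) + N * c * s ^ i ≤ N * s ^ (2 * h) + N * c * s ^ (2 * h) := by
                  have : 0 ≤ N * c := by positivity
                  have := mul_le_mul_of_nonneg_left h5 this
                  linarith
              _ = N * s ^ (2 * h) * (1 + c) := by ring
              _ ≤ X := by
                  rw [hX]
                  exact mul_le_mul_of_nonneg_left hB0 (by positivity)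
          linarith
        · rw [if_neg (by omega)]
          have h5 : -B ≤ W t s N c h (i + 2 - (2 * h + 1)) := by
            rw [W_eq_low _ _ _ _ _ _ (by omega)]
            exact hBlow _ (by omega)
          have h6 : -X ≤ N * s ^ (2 * h) * W t s N c h (i + 2 - (2 * h + 1)) := by
            have : 0 ≤ N * s ^ (2 * h) := by positivity
            have := mul_le_mul_of_nonneg_left h5 this
            rw [hX]; linarith
          linarith
  have hWpos : ∀ j, k₁ ≤ j → j < 2 * h + 1 + (k₁ + 3) → 0 < W t s N c h j := by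
    intro j h1 h2
    by_cases hj : j ≤ 2 * h
    · rw [W_eq_low _ _ _ _ _ _ hj]; exact hpos j h1
    · exact lt_of_lt_of_le hXpos (hup j (by omega) h2)
  refine ⟨h, 2 * h + 1 + (k₁ + 3), by omega, by omega, ?_, ?_, ?_⟩
  · intro j h1 h2
    exact (hWpos j (by omega) h2).le
  · exact hWpos _ (by omega) (by omega)
  · intro j hj
    by_cases h1 : j + 2 ≤ 2 * h
    · rw [W_eq_low _ _ _ _ _ _ h1, W_eq_low _ _ _ _ _ _ (by omega)]
      exact low_G_nonneg ht hs hN hc j
    · have h2 := hWpos (j + 2) (by omega) hj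
      have h3 := hWpos (j + 1) (by omega) (by omega)
      have : 0 ≤ s * W t s N c h (j + 1) := by positivity
      linarith

end Pool.Agent.MP873b83
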