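import Mathlib
import Pool.Agent.MP873b83.Seq

set_option autoImplicit false
set_option linter.unusedVariables false
set_option linter.unusedSectionVars false
set_option linter.unusedSimpArgs false

namespace Pool.Agent.MP873b83

open Polynomial

variable (t s N c : ℤ) (h K : ℕ)

/-- Geometric polynomial. -/
noncomputable def gP : ℤ[X] := ∑ i ∈ Finset.range (2 * h), C ((-s) ^ i) * X ^ i
/-- Truncated series of the sequence `W`. -/
noncomputable def vP : ℤ[X] := ∑ j ∈ Finset.range K, C (W t s N c h j) * X ^ j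
/-- Polynomial `P`. -/
noncomputable def pP : ℤ[X] := 1 - C (s + t) * X + C N * X * gP s h
/-- Polynomial `e`. -/
noncomputable def eP : ℤ[X] := C t * X + C (s * (s + t)) * X ^ 2 + C (N * s ^ (2 * h)) * X ^ (2 * h + 1)
/-- Polynomial `a`. -/
noncomputable def aP : ℤ[X] := 1 - C c * X + vP t s N c h K * (1 + C s * X)
/-- Polynomial `b`. -/
noncomputable def bP : ℤ[X] := X * (1 + C s * X)
/-- Polynomial `X c`. -/
noncomputable def ccP : ℤ[X] :=
  -vP t s N c h K * (1 - eP t s N h) + C c * X * pP t s N h - 1 + C (s + t) * X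
/-- Polynomial `c`. -/
noncomputable def cP : ℤ[X] := divX (ccP t s N c h K)

variable {t s N c h K}

theorem gP_coeff (j : ℕ) : (gP s h).coeff j = if j < 2 * h then (-s) ^ j else 0 := by
  rw [gP, finsetSum_coeff]
  simp only [coeff_C_mul, coeff_X_pow, mul_ite, mul_one, mul_zero, Finset.sum_ite_eq,
    Finset.mem_range]

theorem vP_coeff (j : ℕ) : (vP t s N c h K).coeff j = if j < K then W t s N c h j else 0 := by
  rw [vP, finsetSum_coeff]
  simp only [coeff_C_mul, coeff_X_pow, mul_ite, mul_one, mul_zero, Finset.sum_ite_eq,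
    Finset.mem_range]

theorem gP_mul : gP s h * (1 + C s * X) = 1 - C (s ^ (2 * h)) * X ^ (2 * h) := by
  have h1 : gP s h = ∑ i ∈ Finset.range (2 * h), (C (-s) * X) ^ i := by
    rw [gP]
    apply Finset.sum_congr rfl
    intro i _
    rw [mul_pow, ← C_pow]
  have h2 := geom_sum_mul (C (-s) * X : ℤ[X]) (2 * h)
  rw [h1]
  have h3 : (C (-s) * X : ℤ[X]) ^ (2 * h) = C (s ^ (2 * h)) * X ^ (2 * h) := by
    rw [mul_pow, ← C_pow, (even_two_mul h).neg_pow]
  rw [h3] at h2
  have h4 : (C (-s) : ℤ[X]) = - C s := C_neg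
  rw [h4] at h2 ⊢
  linear_combination -h2

theorem eP_eq : eP t s N h = 1 + C N * X - pP t s N h * (1 + C s * X) := by
  have h1 := gP_mul (s := s) (h := h)
  rw [pP, eP]
  simp only [C_mul, C_add] at *
  linear_combination (C N * X) * h1

theorem det_eq : (1 - aP t s N c h K) * (1 - eP t s N h) - (1 + C s * X) * ccP t s N c h K =
    1 - C t * X - C (N * c + s * (s + t)) * X ^ 2 := by
  have h1 := eP_eq (t := t) (s := s) (N := N) (h := h)
  rw [aP, ccP]
  generalize eP t s N h = e at *
  generalize pP t s N h = p at *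
  rw [h1]
  simp only [C_mul, C_add] at *
  ring

theorem ccP_expand : ccP t s N c h K = - vP t s N c h K + C t * (X ^ 1 * vP t s N c h K) +
    C (s * (s + t)) * (X ^ 2 * vP t s N c h K) +
    C (N * s ^ (2 * h)) * (X ^ (2 * h + 1) * vP t s N c h K) + C (c + (s + t)) * X ^ 1 -
    C (c * (s + t)) * X ^ 2 + C (N * c) * (X ^ 2 * gP s h) - 1 := by
  rw [ccP, eP, pP]
  simp only [C_mul, C_add]
  ring

theorem ccP_coeff (j : ℕ) : (ccP t s N c h K).coeff j =
    -(if j < K then W t s N c h j else 0) +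
    t * (if 1 ≤ j then (if j - 1 < K then W t s N c h (j - 1) else 0) else 0) +
    s * (s + t) * (if 2 ≤ j then (if j - 2 < K then W t s N c h (j - 2) else 0) else 0) +
    N * s ^ (2 * h) * (if 2 * h + 1 ≤ j then
      (if j - (2 * h + 1) < K then W t s N c h (j - (2 * h + 1)) else 0) else 0) +
    (c + (s + t)) * (if j = 1 then 1 else 0) - (c * (s + t)) * (if j = 2 then 1 else 0) +
    N * c * (if 2 ≤ j then (if j - 2 < 2 * h then (-s) ^ (j - 2) else 0) else 0) -
    (if j = 0 then 1 else 0) := by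
  rw [ccP_expand]
  simp only [coeff_sub, coeff_add, coeff_neg, coeff_C_mul, coeff_X_pow_mul', coeff_X_pow,
    coeff_one, vP_coeff, gP_coeff]

theorem ccP_low (hh : 1 ≤ h) (j : ℕ) (hj : j < K) : (ccP t s N c h K).coeff j = 0 := by
  rw [ccP_coeff]
  match j, hj with
  | 0, hj =>
    simp [hj, W_zero]
  | 1, hj =>
    have : ¬ (2 * h + 1 ≤ 1) := by omega
    have h0 : 0 < K := by omega
    simp [hj, W_zero, W_one, this, h0]
    ring
  | (i + 2), hj =>
    rw [if_pos hj, if_pos (by omega), if_pos (by omega), if_pos (by omega), if_pos (by omega),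
      if_neg (by omega : ¬ (i + 2 = 1)), if_neg (by omega : ¬ (i + 2 = 0)), W_succ,
      show i + 2 - 1 = i + 1 by omega, show i + 2 - 2 = i by omega,
      if_pos (by omega : 2 ≤ i + 2)]
    by_cases h1 : 2 * h + 1 ≤ i + 2
    · rw [if_pos h1, if_pos h1, if_pos (by omega : i + 2 - (2 * h + 1) < K)]
      rcases Nat.eq_zero_or_pos i with rfl | hi
      · omega
      · rw [if_neg (by omega : ¬ i = 0), if_neg (by omega : ¬ (i + 2 = 2))]
        by_cases h2 : i < 2 * h
        · rw [if_pos (by omega : i + 2 ≤ 2 * h + 1), if_pos h2]; ring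
        · rw [if_neg (by omega : ¬ i + 2 ≤ 2 * h + 1), if_neg h2]; ring
    · rw [if_neg h1, if_neg h1]
      rcases Nat.eq_zero_or_pos i with rfl | hi
      · rw [if_pos rfl, if_pos rfl, if_pos (by omega : 0 < 2 * h)]; ring
      · rw [if_neg (by omega : ¬ i = 0), if_neg (by omega : ¬ (i + 2 = 2)),
          if_pos (by omega : i + 2 ≤ 2 * h + 1), if_pos (by omega : i < 2 * h)]; ring

/-- The data needed from the window theorem. -/
structure Win (t s N c : ℤ) (h K : ℕ) : Prop where
  ht : 1 ≤ t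
  hs : 1 ≤ s
  hN : 1 ≤ N
  hc : 1 ≤ c
  hh : 1 ≤ h
  hK : 2 * h + 3 ≤ K
  win : ∀ j, K ≤ j + (2 * h + 1) → j < K → 0 ≤ W t s N c h j
  last : 0 < W t s N c h (K - 1)
  G : ∀ j, j + 2 < K → 0 ≤ W t s N c h (j + 2) + s * W t s N c h (j + 1)

theorem ccP_high (w : Win t s N c h K) (j : ℕ) (hj : K ≤ j) : (ccP t s N c h K).coeff j =
    t * (if j - 1 < K then W t s N c h (j - 1) else 0) +
    s * (s + t) * (if j - 2 < K then W t s N c h (j - 2) else 0) +
    N * s ^ (2 * h) * (if j - (2 * h + 1) < K then W t s N c h (j - (2 * h + 1)) else 0) := by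
  have := w.hK
  have := w.hh
  rw [ccP_coeff, if_neg (by omega : ¬ j < K), if_pos (by omega : 1 ≤ j), if_pos (by omega : 2 ≤ j),
    if_pos (by omega : 2 * h + 1 ≤ j),
    if_neg (by omega : ¬ j = 1), if_neg (by omega : ¬ j = 2), if_neg (by omega : ¬ j = 0),
    if_pos (by omega : 2 ≤ j), if_neg (by omega : ¬ j - 2 < 2 * h)]
  ring

theorem ccP_nonneg (w : Win t s N c h K) (j : ℕ) : 0 ≤ (ccP t s N c h K).coeff j := by
  by_cases hj : j < K
  · rw [ccP_low w.hh j hj]
  · have hK := w.hK
    have hh := w.hh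
    have ht := w.ht
    have hs := w.hs
    have hN := w.hN
    rw [ccP_high w j (by omega)]
    have h1 : 0 ≤ (if j - 1 < K then W t s N c h (j - 1) else 0) := by
      split_ifs with h1
      · exact w.win _ (by omega) h1
      · exact le_rfl
    have h2 : 0 ≤ (if j - 2 < K then W t s N c h (j - 2) else 0) := by
      split_ifs with h1
      · exact w.win _ (by omega) h1
      · exact le_rfl
    have h3 : 0 ≤ (if j - (2 * h + 1) < K then W t s N c h (j - (2 * h + 1)) else 0) := by
      split_ifs with h1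
      · exact w.win _ (by omega) h1
      · exact le_rfl
    have h4 : 0 ≤ s * (s + t) := by positivity
    have h5 : 0 ≤ N * s ^ (2 * h) := by positivity
    have h6 : 0 ≤ t := by linarith
    exact add_nonneg (add_nonneg (mul_nonneg h6 h1) (mul_nonneg h4 h2)) (mul_nonneg h5 h3)

theorem ccP_top (w : Win t s N c h K) : 0 < (ccP t s N c h K).coeff (K + 2 * h) := by
  have hK := w.hK
  have hh := w.hh
  have hs := w.hs
  have hN := w.hN
  rw [ccP_high w _ (by omega), if_neg (by omega), if_neg (by omega), if_pos (by omega),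
    show K + 2 * h - (2 * h + 1) = K - 1 by omega]
  have h1 := w.last
  have h2 : 0 < N * s ^ (2 * h) := by positivity
  have := mul_pos h2 h1
  linarith

theorem ccP_deg (w : Win t s N c h K) (j : ℕ) (hj : K + 2 * h < j) :
    (ccP t s N c h K).coeff j = 0 := by
  have hK := w.hK
  have hh := w.hh
  rw [ccP_high w _ (by omega), if_neg (by omega), if_neg (by omega), if_neg (by omega)]
  ring

theorem aP_coeff (j : ℕ) : (aP t s N c h K).coeff (j + 1) =
    - c * (if j = 0 then 1 else 0) + (if j + 1 < K then W t s N c h (j + 1) else 0) +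
      s * (if j < K then W t s N c h j else 0) := by
  have : aP t s N c h K = 1 - C c * X + vP t s N c h K + C s * (X * vP t s N c h K) := by
    rw [aP]; ring
  rw [this]
  simp only [coeff_add, coeff_sub, coeff_C_mul, coeff_X_mul, vP_coeff, coeff_one, coeff_X]
  rw [if_neg (by omega)]
  by_cases hj : j = 0
  · rw [if_pos (by omega), if_pos hj]; ring
  · rw [if_neg (by omega), if_neg hj]; ring

theorem aP_zero (w : Win t s N c h K) : (aP t s N c h K).coeff 0 = 0 := by
  have hK := w.hK
  rw [aP, coeff_add, coeff_sub, mul_coeff_zero, mul_coeff_zero, vP_coeff, if_pos (by omega), W_zero]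
  simp

theorem aP_nonneg (w : Win t s N c h K) (j : ℕ) : 0 ≤ (aP t s N c h K).coeff j := by
  have hK := w.hK
  match j with
  | 0 => rw [aP_zero w]
  | 1 =>
    rw [aP_coeff, if_pos rfl, if_pos (by omega), if_pos (by omega), W_zero, W_one]
    linarith
  | (i + 2) =>
    rw [show i + 2 = (i + 1) + 1 from rfl, aP_coeff, if_neg (by omega)]
    by_cases h1 : i + 1 + 1 < K
    · rw [if_pos h1, if_pos (by omega)]
      have := w.G i h1
      linarith
    · rw [if_neg h1]
      by_cases h2 : i + 1 < K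
      · rw [if_pos h2]
        have h3 := w.last
        rw [show K - 1 = i + 1 by omega] at h3
        have := mul_pos (by linarith [w.hs] : 0 < s) h3
        linarith
      · rw [if_neg h2]; linarith

theorem aP_top (w : Win t s N c h K) : 0 < (aP t s N c h K).coeff K := by
  have hK := w.hK
  obtain ⟨k, rfl⟩ : ∃ k, K = k + 1 := ⟨K - 1, by omega⟩
  rw [aP_coeff, if_neg (by omega), if_neg (by omega), if_pos (by omega)]
  have h3 := w.last
  rw [Nat.add_sub_cancel] at h3
  have := mul_pos (by linarith [w.hs] : 0 < s) h3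
  linarith

theorem aP_deg (w : Win t s N c h K) (j : ℕ) (hj : K < j) : (aP t s N c h K).coeff j = 0 := by
  have hK := w.hK
  obtain ⟨k, rfl⟩ : ∃ k, j = k + 1 := ⟨j - 1, by omega⟩
  rw [aP_coeff, if_neg (by omega), if_neg (by omega), if_neg (by omega)]
  ring

theorem bP_coeff (j : ℕ) : (bP s).coeff j = (if j = 1 then 1 else 0) + s * (if j = 2 then 1 else 0) := by
  have : bP s = X ^ 1 + C s * X ^ 2 := by rw [bP]; ring
  rw [this]
  simp only [coeff_add, coeff_C_mul, coeff_X_pow]

theorem eP_coeff (j : ℕ) : (eP t s N h).coeff j = t * (if j = 1 then 1 else 0) +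
    s * (s + t) * (if j = 2 then 1 else 0) + N * s ^ (2 * h) * (if j = 2 * h + 1 then 1 else 0) := by
  have : eP t s N h = C t * X ^ 1 + C (s * (s + t)) * X ^ 2 +
      C (N * s ^ (2 * h)) * X ^ (2 * h + 1) := by rw [eP]; ring
  rw [this]
  simp only [coeff_add, coeff_C_mul, coeff_X_pow]

theorem eP_nonneg (w : Win t s N c h K) (j : ℕ) : 0 ≤ (eP t s N h).coeff j := by
  have ht := w.ht
  have hs := w.hs
  have hN := w.hN
  have h4 : 0 ≤ s * (s + t) := by positivity
  have h5 : 0 ≤ N * s ^ (2 * h) := by positivity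
  have h6 : 0 ≤ t := by linarith
  have hi : ∀ p : Prop, ∀ [Decidable p], (0 : ℤ) ≤ if p then 1 else 0 := by
    intro p _; split_ifs <;> norm_num
  rw [eP_coeff]
  exact add_nonneg (add_nonneg (mul_nonneg h6 (hi _)) (mul_nonneg h4 (hi _))) (mul_nonneg h5 (hi _))

theorem pP_zero (hh : 1 ≤ h) : (pP t s N h).coeff 0 = 1 := by
  rw [pP]
  simp [mul_coeff_zero]

theorem pP_deg (j : ℕ) (hj : 2 * h < j) (hj2 : 2 ≤ j) : (pP t s N h).coeff j = 0 := by
  obtain ⟨k, rfl⟩ : ∃ k, j = k + 1 := ⟨j - 1, by omega⟩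
  have : pP t s N h = 1 - C (s + t) * X + C N * (X * gP s h) := by rw [pP]; ring
  rw [this]
  simp only [coeff_add, coeff_sub, coeff_C_mul, coeff_X_mul, gP_coeff, coeff_one, coeff_X]
  rw [if_neg (by omega), if_neg (by omega), if_neg (by omega)]
  ring

end Pool.Agent.MP873b83
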