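import Mathlib
import Pool.Agent.MP873b83.Comp

set_option autoImplicit false
set_option linter.unusedVariables false
set_option linter.unusedSectionVars false
set_option linter.unusedSimpArgs false

namespace Pool.Agent.MP873b83

open Matrix Polynomial

variable {n1 n2 : ℕ} {a b c e : ℤ[X]}

theorem comp_nonneg (ha : ∀ j, 0 ≤ a.coeff j) (hb : ∀ j, 0 ≤ b.coeff j) (hc : ∀ j, 0 ≤ c.coeff j)
    (he : ∀ j, 0 ≤ e.coeff j) (u v : Idx n1 n2) : 0 ≤ comp n1 n2 a b c e u v := by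
  rcases u with i | i <;> rcases v with j | j <;> simp only [comp, Matrix.of_apply]
  · split_ifs
    · exact ha _
    · norm_num
    · norm_num
  · split_ifs
    · exact hb _
    · norm_num
  · split_ifs
    · exact hc _
    · norm_num
  · split_ifs
    · exact he _
    · norm_num
    · norm_num

theorem comp_primitive (ha : ∀ j, 0 ≤ a.coeff j) (hb : ∀ j, 0 ≤ b.coeff j)
    (hc : ∀ j, 0 ≤ c.coeff j) (he : ∀ j, 0 ≤ e.coeff j) (e1 : 0 < e.coeff 1) (b1 : 0 < b.coeff 1)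
    (ctop : 0 < c.coeff (n2 + 1)) (atop : 0 < a.coeff (n1 + 1)) :
    (comp n1 n2 a b c e).IsPrimitive := by
  set B := comp n1 n2 a b c e with hB
  have hnn : ∀ u v, 0 ≤ B u v := comp_nonneg ha hb hc he
  have hrefl : ∀ u, ∃ n, 0 < (B ^ n) u u := fun u => ⟨0, by simp⟩
  have htrans : ∀ u v w, (∃ n, 0 < (B ^ n) u v) → (∃ n, 0 < (B ^ n) v w) →
      ∃ n, 0 < (B ^ n) u w := by
    rintro u v w ⟨n, hn⟩ ⟨m, hm⟩
    exact ⟨n + m, pow_pos_trans hnn hn hm⟩
  have hedge : ∀ u v, 0 < B u v → ∃ n, 0 < (B ^ n) u v := fun u v h => ⟨1, by rwa [pow_one]⟩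
  -- chains
  have hch1 : ∀ (d i : ℕ) (hi : i + d < n1 + 1),
      ∃ n, 0 < (B ^ n) (Sum.inl ⟨i, by omega⟩) (Sum.inl ⟨i + d, hi⟩) := by
    intro d
    induction d with
    | zero => intro i hi; exact hrefl _
    | succ d ih =>
      intro i hi
      refine htrans _ _ _ (ih i (by omega)) (hedge _ _ ?_)
      simp only [hB, comp, Matrix.of_apply]
      rw [if_neg (by omega), if_pos (by omega)]
      norm_num
  have hch2 : ∀ (d i : ℕ) (hi : i + d < n2 + 1),
      ∃ n, 0 < (B ^ n) (Sum.inr ⟨i, by omega⟩) (Sum.inr ⟨i + d, hi⟩) := by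
    intro d
    induction d with
    | zero => intro i hi; exact hrefl _
    | succ d ih =>
      intro i hi
      refine htrans _ _ _ (ih i (by omega)) (hedge _ _ ?_)
      simp only [hB, comp, Matrix.of_apply]
      rw [if_neg (by omega), if_pos (by omega)]
      norm_num
  have hb01 : 0 < B (Sum.inl ⟨0, by omega⟩) (Sum.inr ⟨0, by omega⟩) := by
    simp only [hB, comp, Matrix.of_apply, if_true]; exact b1
  have hctop : 0 < B (Sum.inr ⟨n2, by omega⟩) (Sum.inl ⟨0, by omega⟩) := by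
    simp only [hB, comp, Matrix.of_apply, if_true]; exact ctop
  have hatop : 0 < B (Sum.inl ⟨n1, by omega⟩) (Sum.inl ⟨0, by omega⟩) := by
    simp only [hB, comp, Matrix.of_apply, if_true]; exact atop
  have hloop : 0 < B (Sum.inr ⟨0, by omega⟩) (Sum.inr ⟨0, by omega⟩) := by
    simp only [hB, comp, Matrix.of_apply, if_true]; exact e1
  have hi1 : ∀ i : Fin (n1 + 1), ∃ n, 0 < (B ^ n) (Sum.inl i) (Sum.inl ⟨0, by omega⟩) := by
    intro i
    have h1 := hch1 (n1 - i) i (by omega)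
    have h2 : (⟨(i : ℕ) + (n1 - i), by omega⟩ : Fin (n1 + 1)) = ⟨n1, by omega⟩ := by
      ext; simp only; omega
    rw [h2] at h1
    exact htrans _ _ _ h1 (hedge _ _ hatop)
  have hi2 : ∀ i : Fin (n2 + 1), ∃ n, 0 < (B ^ n) (Sum.inr i) (Sum.inl ⟨0, by omega⟩) := by
    intro i
    have h1 := hch2 (n2 - i) i (by omega)
    have h2 : (⟨(i : ℕ) + (n2 - i), by omega⟩ : Fin (n2 + 1)) = ⟨n2, by omega⟩ := by
      ext; simp only; omega
    rw [h2] at h1
    exact htrans _ _ _ h1 (hedge _ _ hctop)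
  refine isPrimitive_of_loop hnn (Sum.inr ⟨0, by omega⟩) hloop ?_ ?_
  · intro i
    rcases i with i | i
    · exact htrans _ _ _ (hi1 i) (hedge _ _ hb01)
    · exact htrans _ _ _ (hi2 i) (hedge _ _ hb01)
  · intro j
    rcases j with j | j
    · refine htrans _ _ _ (hi2 ⟨0, by omega⟩) ?_
      have h1 := hch1 j 0 (by omega)
      have h2 : (⟨0 + (j : ℕ), by omega⟩ : Fin (n1 + 1)) = j := by ext; simp
      rwa [h2] at h1
    · have h1 := hch2 j 0 (by omega)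
      have h2 : (⟨0 + (j : ℕ), by omega⟩ : Fin (n2 + 1)) = j := by ext; simp
      rwa [h2] at h1

/-! ### eventually-in-the-image vectors -/

variable {ι κ : Type} [Fintype ι] [DecidableEq ι] [Fintype κ] [DecidableEq κ]

/-- Vectors some power of `B` maps into the image of `S`. -/
def evIm {A : Matrix ι ι ℤ} {B : Matrix κ κ ℤ} {S : Matrix κ ι ℤ} (hS : S * A = B * S) :
    Submodule ℤ (κ → ℤ) where
  carrier := {f | ∃ l : ℕ, ∃ v, S *ᵥ v = B ^ l *ᵥ f}
  zero_mem' := ⟨0, 0, by simp⟩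
  add_mem' := by
    rintro f g ⟨l, v, hv⟩ ⟨m, w, hw⟩
    refine ⟨l + m, A ^ m *ᵥ v + A ^ l *ᵥ w, ?_⟩
    rw [Matrix.mulVec_add, Matrix.mulVec_add, Matrix.mulVec_mulVec, Matrix.mulVec_mulVec,
      pow_intertwine hS, pow_intertwine hS, ← Matrix.mulVec_mulVec, ← Matrix.mulVec_mulVec, hv, hw,
      Matrix.mulVec_mulVec, Matrix.mulVec_mulVec, ← pow_add, ← pow_add, add_comm m l]
  smul_mem' := by
    rintro z f ⟨l, v, hv⟩
    exact ⟨l, z • v, by rw [Matrix.mulVec_smul, Matrix.mulVec_smul, hv]⟩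

theorem evIm_of_mulVec {A : Matrix ι ι ℤ} {B : Matrix κ κ ℤ} {S : Matrix κ ι ℤ}
    (hS : S * A = B * S) {f : κ → ℤ} (h : B *ᵥ f ∈ evIm hS) : f ∈ evIm hS := by
  obtain ⟨l, v, hv⟩ := h
  exact ⟨l + 1, v, by rw [hv, Matrix.mulVec_mulVec, ← pow_succ]⟩

theorem evIm_mulVec {A : Matrix ι ι ℤ} {B : Matrix κ κ ℤ} {S : Matrix κ ι ℤ}
    (hS : S * A = B * S) {f : κ → ℤ} (h : f ∈ evIm hS) : B *ᵥ f ∈ evIm hS := by
  obtain ⟨l, v, hv⟩ := h
  refine ⟨l, A *ᵥ v, ?_⟩
  rw [Matrix.mulVec_mulVec, hS, ← Matrix.mulVec_mulVec, hv, Matrix.mulVec_mulVec,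
    Matrix.mulVec_mulVec, ← pow_succ, ← pow_succ']

end Pool.Agent.MP873b83
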