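import Mathlib
import Pool.Agent.MP873b83.Polys
import Pool.Agent.MP873b83.Prim

set_option autoImplicit false
set_option linter.unusedVariables false
set_option linter.unusedSectionVars false
set_option linter.unusedSimpArgs false

namespace Pool.Agent.MP873b83

open Matrix Polynomial

theorem p_ext {n1 n2 : ℕ} {f g : Idx n1 n2 → ℤ} (h1 : p1 f = p1 g) (h2 : p2 f = p2 g) : f = g := by
  have e1 : p1 (f + (-1 : ℤ) • g) = 0 := by
    rw [p1_add, p1_smul, h1]; simp
  have e2 : p2 (f + (-1 : ℤ) • g) = 0 := by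
    rw [p2_add, p2_smul, h2]; simp
  have := p_eq_zero e1 e2
  have h3 : f + (-1 : ℤ) • g = 0 := this
  rw [neg_smul, one_smul] at h3
  exact add_neg_eq_zero.1 h3

theorem main_se_aux {t s N c : ℤ} {h n1 n2 : ℕ} (w : Win t s N c h (n1 + 1)) (hn2 : n2 + 1 = n1 + 2 * h) :
    SEPrimitive (!![-s, c; N, s + t] : Matrix (Fin 2) (Fin 2) ℤ) := by
  have ht := w.ht
  have hs := w.hs
  have hN := w.hN
  have hc := w.hc
  have hh := w.hh
  have hK := w.hK
  set K := n1 + 1 with hKdef
  set a := aP t s N c h K with ha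
  set b := bP s with hb
  set cc := ccP t s N c h K with hcc
  set cp := cP t s N c h K with hcp
  set e := eP t s N h with he
  set P := pP t s N h with hP
  set V := vP t s N c h K with hV
  have hccX : cc = X * cp := by
    have h1 := X_mul_divX_add cc
    have h2 : cc.coeff 0 = 0 := ccP_low hh 0 (by omega)
    rw [h2, C_0, add_zero] at h1
    exact h1.symm
  have hcpc : ∀ j, cp.coeff j = cc.coeff (j + 1) := by
    intro j
    rw [hccX, coeff_X_mul]
  have ok : Ok n1 n2 a b cp e := by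
    refine ⟨aP_zero w, ?_, ?_, ?_, ?_, ?_, ?_, ?_⟩
    · rw [bP_coeff]; simp
    · rw [hcpc]; exact ccP_low hh _ (by omega)
    · rw [eP_coeff]; simp
    · intro j hj; exact aP_deg w j (by omega)
    · intro j hj; rw [bP_coeff, if_neg (by omega), if_neg (by omega)]; ring
    · intro j hj; rw [hcpc]; exact ccP_deg w _ (by omega)
    · intro j hj; rw [eP_coeff, if_neg (by omega), if_neg (by omega), if_neg (by omega)]; ring
  set B := comp n1 n2 a b cp e with hB
  have hprim : B.IsPrimitive := by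
    apply comp_primitive
    · exact aP_nonneg w
    · intro j; rw [bP_coeff]; split_ifs <;> linarith
    · intro j; rw [hcpc]; exact ccP_nonneg w _
    · exact eP_nonneg w
    · rw [eP_coeff, if_pos rfl, if_neg (by omega), if_neg (by omega)]; linarith
    · rw [bP_coeff, if_pos rfl, if_neg (by omega)]; norm_num
    · rw [hcpc, show n2 + 1 + 1 = K + 2 * h by omega]; exact ccP_top w
    · exact aP_top w
  -- polynomial identities
  have id1 : e = 1 + C N * X - P * (1 + C s * X) := eP_eq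
  have id2 : (1 - a) * (1 - e) - (1 + C s * X) * cc =
    1 - C t * X - C (N * c + s * (s + t)) * X ^ 2 := det_eq
  have id3 : a = 1 - C c * X + V * (1 + C s * X) := rfl
  have id4 : b = X * (1 + C s * X) := rfl
  have id5 : cc = -V * (1 - e) + C c * X * P - 1 + C (s + t) * X := rfl
  have hP0 : P.coeff 0 = 1 := pP_zero hh
  have hPd : ∀ j, n2 + 1 ≤ j → P.coeff j = 0 := fun j hj => pP_deg j (by omega) (by omega)
  have h1n : 1 < n1 + 1 := by omega
  obtain ⟨w0, hw0⟩ : ∃ w0 : Idx n1 n2 → ℤ, w0 = vec2 n1 n2 P + (-1 : ℤ) • E1 n1 n2 ⟨1, h1n⟩ :=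
    ⟨_, rfl⟩
  obtain ⟨e0, he0⟩ : ∃ e0 : Idx n1 n2 → ℤ, e0 = E2 n1 n2 0 := ⟨_, rfl⟩
  have w0p1 : p1 w0 = -X := by
    rw [hw0, p1_add, p1_smul, p1_vec2, p1_E1]; simp
  have w0p2 : p2 w0 = P := by
    rw [hw0, p2_add, p2_smul, p2_vec2 _ hPd, p2_E1]; simp
  have e0p1 : p1 e0 = 0 := by rw [he0]; exact p1_E2 _
  have e0p2 : p2 e0 = 1 := by rw [he0, p2_E2]; simp
  have w0l : w0 (Sum.inl 0) = 0 := by rw [← p1_coeff_zero w0, w0p1]; simp
  have w0r : w0 (Sum.inr 0) = 1 := by rw [← p2_coeff_zero w0, w0p2, hP0]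
  have e0l : e0 (Sum.inl 0) = 0 := by rw [← p1_coeff_zero e0, e0p1]; simp
  have e0r : e0 (Sum.inr 0) = 1 := by rw [← p2_coeff_zero e0, e0p2]; simp
  -- B w0
  have hBw : B *ᵥ w0 = (-s) • w0 + N • e0 := by
    apply p_ext
    · apply mul_left_cancel₀ (X_ne_zero (R := ℤ))
      rw [X_mul_p1 ok, p1_add, p1_smul, p1_smul, w0p1, w0l, w0r, e0p1, id4]
      simp only [C_neg, C_0, C_1]
      ring
    · apply mul_left_cancel₀ (X_ne_zero (R := ℤ))
      rw [X_mul_p2 ok, p2_add, p2_smul, p2_smul, w0p2, w0l, w0r, e0p2]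
      simp only [C_neg, C_0, C_1]
      linear_combination id1
  -- the defect vector is killed
  obtain ⟨z, hz⟩ : ∃ z : Idx n1 n2 → ℤ, z = B *ᵥ e0 + (-(s + t)) • e0 + (-c) • w0 := ⟨_, rfl⟩
  have hzk : B ^ (K + 1) *ᵥ z = 0 := by
    have hV0 : V.coeff 0 = -1 := by rw [hV, vP_coeff, if_pos (by omega), W_zero]
    apply killed ok (K + 1) z 1 (divX (-V))
    · intro j hj; rw [coeff_one, if_neg (by omega)]
    · intro j hj; rw [coeff_divX, coeff_neg, hV, vP_coeff, if_neg (by omega)]; ring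
    · apply mul_left_cancel₀ (X_ne_zero (R := ℤ))
      have h1 := X_mul_divX_add (-V)
      rw [coeff_neg, hV0, neg_neg, C_1] at h1
      rw [hz, p1_add, p1_add, p1_smul, p1_smul, w0p1, e0p1, mul_add, mul_add, X_mul_p1 ok, e0p1,
        e0l, e0r]
      simp only [C_neg, C_0, C_1]
      linear_combination (b) * h1 + X * id3 - V * id4
    · apply mul_left_cancel₀ (X_ne_zero (R := ℤ))
      have h1 := X_mul_divX_add (-V)
      rw [coeff_neg, hV0, neg_neg, C_1] at h1
      rw [hz, p2_add, p2_add, p2_smul, p2_smul, w0p2, e0p2, mul_add, mul_add, X_mul_p2 ok, e0p2,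
        e0l, e0r]
      simp only [C_neg, C_0, C_1]
      have h2 : X * cp = -V * (1 - e) + C c * X * P - 1 + C (s + t) * X := by rw [← hccX]; exact id5
      linear_combination (-(1 - e)) * h1 + h2
  -- the intertwiner
  set S : Matrix (Idx n1 n2) (Fin 2) ℤ :=
    Matrix.of fun u j => (B ^ (K + 1) *ᵥ ((![w0, e0] : Fin 2 → Idx n1 n2 → ℤ) j)) u with hS
  have hSv : ∀ v : Fin 2 → ℤ, S *ᵥ v = B ^ (K + 1) *ᵥ (v 0 • w0 + v 1 • e0) := by
    intro v
    ext u
    rw [Matrix.mulVec_add, Matrix.mulVec_smul, Matrix.mulVec_smul]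
    simp only [hS, Matrix.mulVec, dotProduct, Matrix.of_apply, Fin.sum_univ_two, Pi.add_apply,
      Pi.smul_apply, smul_eq_mul, Matrix.cons_val_zero, Matrix.cons_val_one]
    ring
  have hcomm : ∀ f, B *ᵥ (B ^ (K + 1) *ᵥ f) = B ^ (K + 1) *ᵥ (B *ᵥ f) := by
    intro f
    rw [Matrix.mulVec_mulVec, Matrix.mulVec_mulVec, ← pow_succ, ← pow_succ']
  have hBe : B ^ (K + 1) *ᵥ (B *ᵥ e0) = B ^ (K + 1) *ᵥ ((s + t) • e0 + c • w0) := by
    have h1 : B *ᵥ e0 = z + ((s + t) • e0 + c • w0) := by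
      rw [hz]; simp only [neg_smul]; abel
    rw [h1, Matrix.mulVec_add, hzk, zero_add]
  have hSA : S * (!![-s, c; N, s + t] : Matrix (Fin 2) (Fin 2) ℤ) = B * S := by
    have key : ∀ v : Fin 2 → ℤ, S *ᵥ ((!![-s, c; N, s + t] : Matrix (Fin 2) (Fin 2) ℤ) *ᵥ v) =
        B *ᵥ (S *ᵥ v) := by
      intro v
      rw [hSv, hSv, hcomm]
      rw [Matrix.mulVec_add B, Matrix.mulVec_smul B, Matrix.mulVec_smul B, hBw]
      rw [Matrix.mulVec_add (B ^ (K + 1)) (v 0 • _), Matrix.mulVec_smul (B ^ (K + 1)) (v 1), hBe,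
        ← Matrix.mulVec_smul, ← Matrix.mulVec_add]
      congr 1
      simp only [Matrix.mulVec, dotProduct, Fin.sum_univ_two, Matrix.of_apply, Matrix.cons_val_zero,
        Matrix.cons_val_one, Matrix.cons_val', Matrix.cons_val_fin_one]
      ext u
      simp only [Pi.add_apply, Pi.smul_apply, smul_eq_mul]
      ring
    ext u j
    have h1 := congrFun (key (Pi.single j 1)) u
    rw [Matrix.mulVec_mulVec, Matrix.mulVec_mulVec, Matrix.mulVec_single_one,
      Matrix.mulVec_single_one] at h1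
    exact h1
  have hinj : ∀ v, S *ᵥ v = 0 → v = 0 := by
    intro v hv
    rw [hSv] at hv
    obtain ⟨φ, ψ, q1, q2⟩ := of_killed ok _ _ hv
    rw [p1_add, p1_smul, p1_smul, w0p1, e0p1] at q1
    rw [p2_add, p2_smul, p2_smul, w0p2, e0p2] at q2
    have q3 : φ * (1 - C t * X - C (N * c + s * (s + t)) * X ^ 2) =
        C (v 1) * X + C (v 0 * N + v 1 * s) * X ^ 2 := by
      have h2 : (1 + C s * X) * cc = b * cp := by rw [id4, hccX]; ring
      rw [← id2, h2]
      simp only [C_add, C_mul] at *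
      linear_combination (-(1 - e)) * q1 - b * q2 + (C (v 0) * P + C (v 1)) * id4 + C (v 0) * X * id1
    have hm : N * c + s * (s + t) ≠ 0 := by
      have : 0 < N * c + s * (s + t) := by positivity
      exact this.ne'
    have hφ : φ = 0 := by
      by_contra hne
      have d1 : (1 - C t * X - C (N * c + s * (s + t)) * X ^ 2 : ℤ[X]).natDegree = 2 := by
        have : (1 - C t * X - C (N * c + s * (s + t)) * X ^ 2 : ℤ[X]) =
            C (-(N * c + s * (s + t))) * X ^ 2 + C (-t) * X + C 1 := by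
          simp only [C_neg, C_1]; ring
        rw [this]
        exact natDegree_quadratic (neg_ne_zero.2 hm)
      have d2 : (C (v 1) * X + C (v 0 * N + v 1 * s) * X ^ 2 : ℤ[X]).natDegree ≤ 2 := by
        have : (C (v 1) * X + C (v 0 * N + v 1 * s) * X ^ 2 : ℤ[X]) =
            C (v 0 * N + v 1 * s) * X ^ 2 + C (v 1) * X + C 0 := by
          simp only [C_0]; ring
        rw [this]
        exact natDegree_quadratic_le
      have hχ0 : (1 - C t * X - C (N * c + s * (s + t)) * X ^ 2 : ℤ[X]) ≠ 0 := by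
        intro h0; rw [h0] at d1; simp at d1
      rw [← q3, natDegree_mul hne hχ0, d1] at d2
      have d3 : φ.natDegree = 0 := by omega
      rw [natDegree_eq_zero] at d3
      obtain ⟨x, hx⟩ := d3
      have h0 := congrArg (fun p => p.coeff 0) q3
      simp [← hx, mul_coeff_zero] at h0
      apply hne
      rw [← hx, h0, C_0]
    rw [hφ, zero_mul] at q3
    have c1 := congrArg (fun p => p.coeff 1) q3
    have c2 := congrArg (fun p => p.coeff 2) q3
    simp only [coeff_zero, coeff_add, coeff_C_mul, coeff_X, coeff_X_pow] at c1 c2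
    norm_num at c1 c2
    have c0 : v 1 = 0 := by
      first
        | exact c1
        | exact c1.symm
    rw [c0] at c2
    have c3 : v 0 = 0 := by
      have c4 : v 0 * N = 0 := by linarith
      rcases mul_eq_zero.1 c4 with h0 | h0
      · exact h0
      · exfalso; linarith
    ext j
    fin_cases j
    · exact c3
    · exact c0
  refine SEPrimitive.intro hprim (shiftEquiv_of_image hSA hinj ?_)
  have hE2 : ∀ (j : ℕ) (hj : j + 1 < n2 + 1), B *ᵥ E2 n1 n2 ⟨j + 1, hj⟩ = E2 n1 n2 ⟨j, by omega⟩ :=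
    fun j hj => comp_E2_succ j hj
  have hE1 : ∀ (j : ℕ) (hj : j + 1 < n1 + 1), B *ᵥ E1 n1 n2 ⟨j + 1, hj⟩ = E1 n1 n2 ⟨j, by omega⟩ :=
    fun j hj => comp_E1_succ j hj
  have Te : e0 ∈ evIm hSA := ⟨K + 1, ![0, 1], by rw [hSv]; simp⟩
  have Tw : w0 ∈ evIm hSA := ⟨K + 1, ![1, 0], by rw [hSv]; simp⟩
  have T2 : ∀ (j : ℕ) (hj : j < n2 + 1), E2 n1 n2 ⟨j, hj⟩ ∈ evIm hSA := by
    intro j
    induction j with
    | zero => intro hj; rw [he0] at Te; exact Te
    | succ j ih =>
      intro hj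
      apply evIm_of_mulVec hSA
      rw [hE2]
      exact ih (by omega)
  have Tv : vec2 n1 n2 P ∈ evIm hSA := by
    have : vec2 n1 n2 P = ∑ j : Fin (n2 + 1), P.coeff j • E2 n1 n2 j := by
      ext u
      rw [Finset.sum_apply]
      rcases u with i | i
      · simp [vec2, E2]
      · simp only [vec2, Sum.elim_inr, Pi.smul_apply, smul_eq_mul, E2, Pi.single_apply,
          Sum.inr.injEq, mul_ite, mul_one, mul_zero, Finset.sum_ite_eq, Finset.mem_univ, if_true]
    rw [this]
    exact Submodule.sum_mem _ fun j _ => Submodule.smul_mem _ _ (T2 j j.2)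
  have T11 : E1 n1 n2 ⟨1, h1n⟩ ∈ evIm hSA := by
    have : E1 n1 n2 ⟨1, h1n⟩ = vec2 n1 n2 P - w0 := by
      rw [hw0, neg_smul, one_smul]; abel
    rw [this]
    exact Submodule.sub_mem _ Tv Tw
  have T10 : E1 n1 n2 ⟨0, by omega⟩ ∈ evIm hSA := by
    have h1 := evIm_mulVec hSA T11
    rw [hE1 0 h1n] at h1
    exact h1
  have T1 : ∀ (j : ℕ) (hj : j < n1 + 1), E1 n1 n2 ⟨j, hj⟩ ∈ evIm hSA := by
    intro j
    induction j with
    | zero => intro hj; exact T10
    | succ j ih =>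
      intro hj
      apply evIm_of_mulVec hSA
      rw [hE1]
      exact ih (by omega)
  intro u
  rcases u with i | i
  · exact T1 i i.2
  · exact T2 i i.2

/-- The matrices with a negative diagonal entry. -/
theorem main_se {t s N c : ℤ} (ht : 1 ≤ t) (hs : 1 ≤ s) (hN : 1 ≤ N) (hc : 1 ≤ c) :
    SEPrimitive (!![-s, c; N, s + t] : Matrix (Fin 2) (Fin 2) ℤ) := by
  obtain ⟨h, K, hh, hK, h1, h2, h3⟩ := exists_window ht hs hN hc
  obtain ⟨n1, rfl⟩ : ∃ n1, K = n1 + 1 := ⟨K - 1, by omega⟩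
  exact main_se_aux (n1 := n1) (n2 := n1 + 2 * h - 1) ⟨ht, hs, hN, hc, hh, hK, h1, h2, h3⟩ (by omega)

end Pool.Agent.MP873b83
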