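import Mathlib
import Pool.Agent.MP873b83.Main

set_option autoImplicit false
set_option linter.unusedVariables false
set_option linter.unusedSectionVars false
set_option linter.unusedSimpArgs false

namespace Pool.Agent.MP873b83

open Matrix Polynomial

theorem SEPrimitive.conj {A A' P Q : Matrix (Fin 2) (Fin 2) ℤ} (hPQ : P * Q = 1) (hQP : Q * P = 1)
    (h : A * P = P * A') (h' : SEPrimitive A') : SEPrimitive A :=
  SEPrimitive.of_shiftEquiv (ShiftEquiv.of_conj hPQ hQP h) h'

theorem swap_case {a b c d : ℤ} (h : SEPrimitive (!![d, c; b, a] : Matrix (Fin 2) (Fin 2) ℤ)) :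
    SEPrimitive (!![a, b; c, d] : Matrix (Fin 2) (Fin 2) ℤ) := by
  refine SEPrimitive.conj (P := !![0, 1; 1, 0]) (Q := !![0, 1; 1, 0]) ?_ ?_ ?_ h
  · ext i j; fin_cases i <;> fin_cases j <;> simp [Matrix.mul_apply, Fin.sum_univ_two]
  · ext i j; fin_cases i <;> fin_cases j <;> simp [Matrix.mul_apply, Fin.sum_univ_two]
  · ext i j; fin_cases i <;> fin_cases j <;> simp [Matrix.mul_apply, Fin.sum_univ_two]

theorem sign_case {a b c d : ℤ} (h : SEPrimitive (!![a, -b; -c, d] : Matrix (Fin 2) (Fin 2) ℤ)) :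
    SEPrimitive (!![a, b; c, d] : Matrix (Fin 2) (Fin 2) ℤ) := by
  refine SEPrimitive.conj (P := !![1, 0; 0, -1]) (Q := !![1, 0; 0, -1]) ?_ ?_ ?_ h
  · ext i j; fin_cases i <;> fin_cases j <;> simp [Matrix.mul_apply, Fin.sum_univ_two]
  · ext i j; fin_cases i <;> fin_cases j <;> simp [Matrix.mul_apply, Fin.sum_univ_two]
  · ext i j; fin_cases i <;> fin_cases j <;> simp [Matrix.mul_apply, Fin.sum_univ_two]

theorem shear_case {a b c d : ℤ} (q : ℤ)
    (h : SEPrimitive (!![a - q * c, a * q + b - q * (c * q + d); c, c * q + d] :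
      Matrix (Fin 2) (Fin 2) ℤ)) :
    SEPrimitive (!![a, b; c, d] : Matrix (Fin 2) (Fin 2) ℤ) := by
  refine SEPrimitive.conj (P := !![1, q; 0, 1]) (Q := !![1, -q; 0, 1]) ?_ ?_ ?_ h
  · ext i j; fin_cases i <;> fin_cases j <;> simp [Matrix.mul_apply, Fin.sum_univ_two]
  · ext i j; fin_cases i <;> fin_cases j <;> simp [Matrix.mul_apply, Fin.sum_univ_two]
  · ext i j; fin_cases i <;> fin_cases j <;> simp [Matrix.mul_apply, Fin.sum_univ_two]

theorem ShiftEquiv.refl {ι : Type} [Fintype ι] [DecidableEq ι] (A : Matrix ι ι ℤ) :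
    ShiftEquiv A A :=
  ShiftEquiv.of_conj (P := 1) (Q := 1) (by simp) (by simp) (by simp)

theorem pos_case {a b c d : ℤ} (ht : 1 ≤ a + d) (hb : 0 < b) (hc : 0 < c) :
    SEPrimitive (!![a, b; c, d] : Matrix (Fin 2) (Fin 2) ℤ) := by
  by_cases ha : a < 0
  · have := main_se (t := a + d) (s := -a) (N := c) (c := b) ht (by omega) (by omega) (by omega)
    have e : (!![-(-a), b; c, -a + (a + d)] : Matrix (Fin 2) (Fin 2) ℤ) = !![a, b; c, d] := by
      rw [neg_neg, neg_add_cancel_left]
    rwa [e] at this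
  by_cases hd : d < 0
  · apply swap_case
    have := main_se (t := a + d) (s := -d) (N := b) (c := c) ht (by omega) (by omega) (by omega)
    have e : (!![-(-d), c; b, -d + (a + d)] : Matrix (Fin 2) (Fin 2) ℤ) = !![d, c; b, a] := by
      rw [neg_neg, show -d + (a + d) = a by ring]
    rwa [e] at this
  push Not at ha hd
  refine SEPrimitive.intro ⟨?_, 2, by norm_num, ?_⟩ (ShiftEquiv.refl _)
  · intro i j
    fin_cases i <;> fin_cases j <;> simp
    · exact ha
    · exact hb.le
    · exact hc.le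
    · exact hd
  · intro i j
    rw [pow_two]
    fin_cases i <;> fin_cases j <;> simp [Matrix.mul_apply, Fin.sum_univ_two]
    · nlinarith [mul_pos hb hc]
    · nlinarith [mul_pos hb hc]
    · nlinarith [mul_pos hb hc]
    · nlinarith [mul_pos hb hc]

theorem exists_shift (x c : ℤ) (hc : c ≠ 0) : ∃ q : ℤ, |x - 2 * (q * c)| ≤ |c| := by
  have hc' : 0 < |c| := abs_pos.2 hc
  have h1 := Int.emod_nonneg (x + |c|) (by omega : (2 * |c|) ≠ 0)
  have h2 := Int.emod_lt_of_pos (x + |c|) (by omega : 0 < 2 * |c|)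
  have h3 := Int.emod_add_mul_ediv (x + |c|) (2 * |c|)
  have h4 : |x - 2 * (((x + |c|) / (2 * |c|)) * |c|)| ≤ |c| := by
    rw [abs_le]
    constructor <;> nlinarith
  rcases abs_choice c with h | h
  · rw [h] at h4 ⊢
    exact ⟨(x + c) / (2 * c), h4⟩
  · rw [h] at h4 ⊢
    refine ⟨-((x + -c) / (2 * -c)), ?_⟩
    have e : x - 2 * (-((x + -c) / (2 * -c)) * c) = x - 2 * ((x + -c) / (2 * -c) * -c) := by ring
    rw [e]
    exact h4

theorem reduce : ∀ (n : ℕ) (a b c d : ℤ), c.natAbs ≤ n → 1 ≤ a + d →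
    0 < (a - d) ^ 2 + 4 * (b * c) → ¬ IsSquare ((a - d) ^ 2 + 4 * (b * c)) →
    SEPrimitive (!![a, b; c, d] : Matrix (Fin 2) (Fin 2) ℤ) := by
  intro n
  induction n with
  | zero =>
    intro a b c d hc ht hD hsq
    exfalso
    have : c = 0 := by omega
    rw [this] at hsq
    exact hsq ⟨a - d, by ring⟩
  | succ n ih =>
    intro a b c d hc ht hD hsq
    have hc0 : c ≠ 0 := by
      intro h0
      rw [h0] at hsq
      exact hsq ⟨a - d, by ring⟩
    obtain ⟨q, hq⟩ := exists_shift (a - d) c hc0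
    apply shear_case q
    generalize ha' : a - q * c = a' at *
    generalize hb' : a * q + b - q * (c * q + d) = b' at *
    generalize hd' : c * q + d = d' at *
    have e1 : a' + d' = a + d := by rw [← ha', ← hd']; ring
    have e2 : (a' - d') ^ 2 + 4 * (b' * c) = (a - d) ^ 2 + 4 * (b * c) := by
      rw [← ha', ← hd', ← hb', ← hd']; ring
    have e3 : a - d - 2 * (q * c) = a' - d' := by rw [← ha', ← hd']; ring
    rw [← e1] at ht
    rw [← e2] at hD hsq
    rw [e3] at hq
    rcases lt_trichotomy (b' * c) 0 with h | h | h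
    · -- swap and recurse
      apply swap_case
      have h1 : (a' - d') ^ 2 ≤ c ^ 2 := sq_le_sq.2 hq
      have h2 : |b'| < |c| := by
        have h3 : |b' * c| = -(b' * c) := abs_of_neg h
        rw [abs_mul] at h3
        have h4 : 4 * (|b'| * |c|) < |c| * |c| := by
          rw [h3]
          have : |c| * |c| = c ^ 2 := by rw [abs_mul_abs_self, pow_two]
          rw [this]
          linarith
        have h5 : 0 < |c| := abs_pos.2 hc0
        have h6 : 0 ≤ |b'| := abs_nonneg _
        nlinarith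
      apply ih d' c b' a'
      · have h7 : ((b'.natAbs : ℕ) : ℤ) < ((c.natAbs : ℕ) : ℤ) := by
          rw [Int.natCast_natAbs, Int.natCast_natAbs]; exact h2
        have h8 : b'.natAbs < c.natAbs := by exact_mod_cast h7
        omega
      · linarith
      · linarith [show (d' - a') ^ 2 + 4 * (c * b') = (a' - d') ^ 2 + 4 * (b' * c) by ring]
      · rw [show (d' - a') ^ 2 + 4 * (c * b') = (a' - d') ^ 2 + 4 * (b' * c) by ring]
        exact hsq
    · exfalso
      rw [h] at hsq
      exact hsq ⟨a' - d', by ring⟩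
    · rcases pos_and_pos_or_neg_and_neg_of_mul_pos h with ⟨h1, h2⟩ | ⟨h1, h2⟩
      · exact pos_case ht h1 h2
      · apply sign_case
        exact pos_case ht (by linarith) (by linarith)

end Pool.Agent.MP873b83
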